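import Pool.Agent.Lib.helper92.ZF.Defs

/-! The topological notions of the problem, relativised to a transitive model `M`. -/

namespace Pool.Agent.MP_57347c_gt.H92

open ZFSet Pool.Agent.ZF92

/-- In `M`, the pair `(X, T)` is a regular `T_1` space. -/
structure RegularSp (M : Set ZFSet.{0}) (X T : ZFSet.{0}) : Prop where
  sub : ∀ U ∈ T, U ⊆ X
  whole : X ∈ T
  inter : ∀ U ∈ T, ∀ V ∈ T, U ∩ V ∈ T
  unions : ∀ C ∈ M, C ⊆ T → ZFSet.sUnion C ∈ T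
  t1 : ∀ x ∈ X, ∀ y ∈ X, x ≠ y → ∃ U ∈ T, x ∈ U ∧ y ∉ U
  regular : ∀ U ∈ T, ∀ x ∈ U, ∃ V ∈ T, ∃ W ∈ T, x ∈ V ∧ V ∩ W = ∅ ∧ ∀ y ∈ X, y ∉ U → y ∈ W

/-- Disjoint closed sets (complements of `U` and `V`) have disjoint open neighbourhoods. -/
def IsNormal (X T : ZFSet.{0}) : Prop :=
  ∀ U ∈ T, ∀ V ∈ T, X ⊆ U ∪ V → ∃ U' ∈ T, ∃ V' ∈ T, U' ∩ V' = ∅ ∧
    (∀ y ∈ X, y ∉ U → y ∈ U') ∧ ∀ y ∈ X, y ∉ V → y ∈ V'

/-- `A` is countable in `M`. -/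
def CountableIn (M : Set ZFSet.{0}) (A : ZFSet.{0}) : Prop :=
  ∃ f ∈ M, IsFunc A omega f ∧ ∀ x y z, pair x z ∈ f → pair y z ∈ f → x = y

/-- In `M`, every point has an open neighbourhood meeting countably many members of `C`. -/
def LocCountable (M : Set ZFSet.{0}) (X T C : ZFSet.{0}) : Prop :=
  ∀ x ∈ X, ∃ W ∈ T, x ∈ W ∧ CountableIn M (C.sep fun U => U ∩ W ≠ ∅)

/-- In `M`, every open cover has a locally countable open refinement. -/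
def ParaLindelof (M : Set ZFSet.{0}) (X T : ZFSet.{0}) : Prop :=
  ∀ C ∈ M, C ⊆ T → X ⊆ ZFSet.sUnion C → ∃ D ∈ M, D ⊆ T ∧ X ⊆ ZFSet.sUnion D ∧
    (∀ V ∈ D, ∃ U ∈ C, V ⊆ U) ∧ LocCountable M X T D

/-- `B` is a base of the topology `T`. -/
def IsBase (T B : ZFSet.{0}) : Prop := B ⊆ T ∧ ∀ U ∈ T, ∀ x ∈ U, ∃ V ∈ B, x ∈ V ∧ V ⊆ U

/-- The set `s` is the graph of the sequence `b`. -/
def SeqOf (s : ZFSet.{0}) (b : ℕ → ZFSet.{0}) : Prop := ∀ z, z ∈ s ↔ ∃ n, z = pair (nat n) (b n)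

/-- In `M`, the space has a base of countable order. -/
def HasBCO (M : Set ZFSet.{0}) (X T : ZFSet.{0}) : Prop :=
  ∃ B ∈ M, IsBase T B ∧ ∀ x ∈ X, ∀ s ∈ M, ∀ b, SeqOf s b → (∀ n, b n ∈ B) → (∀ n, x ∈ b n) →
    (∀ n, b (n + 1) ⊆ b n ∧ b (n + 1) ≠ b n) → ∀ U ∈ T, x ∈ U → ∃ n, b n ⊆ U

/-- In `M`, the space has a base that is a countable union of locally countable families. -/
def HasSigmaLocCountableBase (M : Set ZFSet.{0}) (X T : ZFSet.{0}) : Prop :=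
  ∃ B ∈ M, IsBase T B ∧ ∃ s ∈ M, ∃ b, SeqOf s b ∧ (∀ U, U ∈ B ↔ ∃ n, U ∈ b n) ∧
    ∀ n, LocCountable M X T (b n)

end Pool.Agent.MP_57347c_gt.H92
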