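import Mathlib.Order.Lattice.Nat
import Mathlib.Data.Set.Countable
import Mathlib.Algebra.Notation.Lemmas
import Mathlib.Order.CompletePartialOrder
import Mathlib.Algebra.GroupWithZero.Nat
import Mathlib.Order.Interval.Set.Infinite
import Mathlib.Data.W.Cardinal
import Mathlib.Analysis.Real.Cardinality
import Mathlib.Tactic.SuppressCompilation
import Pool.Agent.MP_57347c_gt.h92.Defs
import Pool.Agent.Lib.helper92.ZF.Reals
import Pool.Agent.Lib.helper92.ZF.GenAPI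

-- ======== part 0: formerly Pool.Agent.MP_57347c_gt.h92.Comb
section MrgPart0

/-! Finite labelled data, pressing down over countable sets. -/

namespace Pool.Agent.MP_57347c_gt.H92

open Set
open scoped Classical

/-- A finite set of atoms with labels on pairs. -/
structure Dt (U L : Type) where
  u : Finset U
  lab : U → U → L

variable {U L : Type}

def Dt.le (p q : Dt U L) : Prop := p.u ⊆ q.u ∧ ∀ x ∈ p.u, ∀ y ∈ p.u, q.lab x y = p.lab x y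

theorem Dt.le_refl (p : Dt U L) : p.le p := ⟨fun _ h => h, fun _ _ _ _ => rfl⟩

theorem Dt.le.trans {p q r : Dt U L} (h : p.le q) (h' : q.le r) : p.le r :=
  ⟨h.1.trans h'.1, fun x hx y hy => (h'.2 x (h.1 hx) y (h.1 hy)).trans (h.2 x hx y hy)⟩

def Dt.Agree (p q : Dt U L) : Prop :=
  ∀ x ∈ p.u, x ∈ q.u → ∀ y ∈ p.u, y ∈ q.u → p.lab x y = q.lab x y

theorem Dt.agree_of {w p q : Dt U L} (hp : w.le p) (hq : w.le q)
    (h : ∀ x ∈ p.u, x ∈ q.u → x ∈ w.u) : p.Agree q := fun x h1 h2 y h3 h4 =>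
  (hp.2 x (h x h1 h2) y (h y h3 h4)).trans (hq.2 x (h x h1 h2) y (h y h3 h4)).symm

theorem ctb_finsets {Z : Set U} (hZ : Z.Countable) : {s : Finset U | ↑s ⊆ Z}.Countable :=
  ((countable_ofPred_finite_subset hZ).preimage Finset.coe_injective).mono
    fun s hs => (⟨s.finite_toSet, hs⟩ : (s : Set U).Finite ∧ ↑s ⊆ Z)

theorem exists_close (F : Finset U → Set U) (hF : ∀ s, (F s).Countable) :
    ∃ Z : Set U, Z.Countable ∧ ∀ s : Finset U, ↑s ⊆ Z → F s ⊆ Z := by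
  let Z : ℕ → Set U := fun n => Nat.rec ∅ (fun _ A => A ∪ ⋃ s ∈ {s : Finset U | ↑s ⊆ A}, F s) n
  have hc : ∀ n, (Z n).Countable := fun n => by
    induction n with
    | zero => exact countable_empty
    | succ n ih => exact ih.union ((ctb_finsets ih).biUnion fun s _ => hF s)
  have hm : Monotone Z := monotone_nat_of_le_succ fun n => subset_union_left
  refine ⟨⋃ n, Z n, countable_iUnion hc, fun s hs => ?_⟩
  choose! k hk using fun x hx => mem_iUnion.1 (hs (a := x) hx)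
  let n := s.sup k
  have hn : ↑s ⊆ Z n := fun x hx => hm (Finset.le_sup hx) (hk x hx)
  exact (subset_union_right.trans' (subset_biUnion_of_mem (u := F)
    (s := {s : Finset U | ↑s ⊆ Z n}) hn)).trans (subset_iUnion Z (n + 1))

noncomputable def Dt.mk' (l0 : L) (s : Finset U) (l : s → s → L) : Dt U L :=
  ⟨s, fun x y => if h : x ∈ s ∧ y ∈ s then l ⟨x, h.1⟩ ⟨y, h.2⟩ else l0⟩

theorem Dt.mk'_le (l0 : L) (w : Dt U L) {s : Finset U} (hs : s ⊆ w.u) :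
    (Dt.mk' l0 s fun x y => w.lab x y).le w :=
  ⟨hs, fun x hx y hy => by simp only [Dt.mk'] at hx hy ⊢; rw [dif_pos ⟨hx, hy⟩]⟩

/-- Pressing down. -/
theorem press [Countable L] (l0 : L) {R : Set U → Dt U L → Prop}
    (anti : ∀ X Y w, X ⊆ Y → R Y w → R X w) (h : ∀ X : Set U, X.Countable → ∃ w, R X w) :
    ∃ w0 : Dt U L, ∀ X : Set U, X.Countable →
      ∃ w, R X w ∧ w0.le w ∧ ∀ x ∈ w.u, x ∈ X → x ∈ w0.u := by
  by_contra hn
  push Not at hn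
  choose X hX hX' using hn
  obtain ⟨Z, hZ, hZ'⟩ := exists_close (fun s => ⋃ l : s → s → L, X (Dt.mk' l0 s l))
    fun s => countable_iUnion fun l => hX _
  obtain ⟨w, hw⟩ := h Z hZ
  have h1 := (subset_iUnion (fun l => X (Dt.mk' l0 (w.u.filter (· ∈ Z)) l))
    fun x y => w.lab x y).trans (hZ' _ fun x hx => (Finset.mem_filter.1 hx).2)
  obtain ⟨x, h2, h3, h4⟩ := hX' _ w (anti _ _ _ h1 hw) (Dt.mk'_le l0 w (Finset.filter_subset _ _))
  exact h4 (Finset.mem_filter.2 ⟨h2, h1 h3⟩)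

/-- Every family of data has a countable subfamily meeting all agreement types. -/
theorem exists_ctb_agree [Countable L] (l0 : L) (A : Set (Dt U L)) :
    ∃ B ⊆ A, B.Countable ∧ ∀ p ∈ A, ∃ q ∈ B, p.Agree q := by
  rcases A.eq_empty_or_nonempty with rfl | ⟨p0, h0⟩
  · exact ⟨∅, subset_rfl, countable_empty, by simp⟩
  have h : ∀ w : Dt U L, ∃ q ∈ A, (∃ p ∈ A, w.le p) → w.le q := fun w => by
    by_cases h : ∃ p ∈ A, w.le p
    · exact let ⟨p, h1, h2⟩ := h; ⟨p, h1, fun _ => h2⟩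
    · exact ⟨p0, h0, fun h' => absurd h' h⟩
  choose F hF hF' using h
  obtain ⟨Z, hZ, hZ'⟩ := exists_close (fun s => ⋃ l : s → s → L, ((F (Dt.mk' l0 s l)).u : Set U))
    fun s => countable_iUnion fun l => Finset.countable_toSet _
  refine ⟨⋃ s ∈ {s : Finset U | ↑s ⊆ Z}, range fun l : s → s → L => F (Dt.mk' l0 s l), ?_, ?_,
    fun p hp => ?_⟩
  · simp only [iUnion_subset_iff, range_subset_iff]
    exact fun s _ l => hF _
  · exact (ctb_finsets hZ).biUnion fun s _ => countable_range _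
  have h0 : ((p.u.filter (· ∈ Z) : Finset U) : Set U) ⊆ Z := fun x hx => (Finset.mem_filter.1 hx).2
  have h1 := (subset_iUnion (fun l => ((F (Dt.mk' l0 (p.u.filter (· ∈ Z)) l)).u : Set U))
    fun x y => p.lab x y).trans (hZ' _ h0)
  have h2 := Dt.mk'_le l0 p (Finset.filter_subset (· ∈ Z) _)
  exact ⟨_, mem_biUnion h0 ⟨fun x y => p.lab x y, rfl⟩, Dt.agree_of h2 (hF' _ ⟨p, hp, h2⟩)
    fun x h3 h4 => Finset.mem_filter.2 ⟨h3, h1 h4⟩⟩

theorem exists_forall_ctb {R : ℕ → Set U → Prop} (anti : ∀ j X Y, X ⊆ Y → R j Y → R j X)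
    (h : ∀ X : Set U, X.Countable → ∃ j, R j X) : ∃ j, ∀ X : Set U, X.Countable → R j X := by
  by_contra hn
  push Not at hn
  choose X hX hX' using hn
  obtain ⟨j, hj⟩ := h _ (countable_iUnion hX)
  exact hX' j (anti _ _ _ (subset_iUnion X j) hj)

/-- Countably many choices, each avoiding the previous ones. -/
theorem exists_level {J Y : Type} [Countable J] (a : Y → Set U) (ha : ∀ y, (a y).Countable)
    {R : J → Set U → Y → Prop} (anti : ∀ j X X' y, X ⊆ X' → R j X' y → R j X y)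
    (h : ∀ j (X : Set U), X.Countable → ∃ y, R j X y) {X0 : Set U} (h0 : X0.Countable) :
    ∃ y : J → Y, (∀ j, R j X0 (y j)) ∧
      ∀ j j', j ≠ j' → R j (a (y j')) (y j) ∨ R j' (a (y j)) (y j') := by
  obtain ⟨e, he⟩ := exists_injective_nat J
  rcases isEmpty_or_nonempty J with hJ | ⟨⟨j0⟩⟩
  · exact ⟨isEmptyElim, isEmptyElim, isEmptyElim⟩
  have : Nonempty Y := let ⟨y, _⟩ := h j0 X0 h0; ⟨y⟩
  choose! F hF using h
  let Z : ℕ → Set U := fun n => Nat.rec X0 (fun _ A => A ∪ ⋃ j, a (F j A)) n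
  have hc : ∀ n, (Z n).Countable := fun n => by
    induction n with
    | zero => exact h0
    | succ n ih => exact ih.union (countable_iUnion fun j => ha _)
  have hm : Monotone Z := monotone_nat_of_le_succ fun n => subset_union_left
  have h1 : ∀ j j', e j' < e j → R j (a (F j' (Z (e j')))) (F j (Z (e j))) := fun j j' h =>
    anti _ _ _ _ (((subset_iUnion (fun j => a (F j (Z (e j')))) j').trans
      subset_union_right).trans (hm (Nat.succ_le_of_lt h))) (hF _ _ (hc _))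
  exact ⟨fun j => F j (Z (e j)), fun j => anti _ _ _ _ (hm (Nat.zero_le _)) (hF _ _ (hc _)),
    fun j j' hj => (lt_or_gt_of_ne (he.ne hj)).symm.imp (h1 j j') (h1 j' j)⟩

end Pool.Agent.MP_57347c_gt.H92

end MrgPart0

-- ======== part 1: formerly Pool.Agent.MP_57347c_gt.h92.Poset
section MrgPart1

/-! The forcing conditions and their amalgamation. -/

namespace Pool.Agent.MP_57347c_gt.H92

open Set Sum
open scoped Classical

noncomputable def Dt.res {U L : Type} (p : Dt U L) (B : U → Prop) : Dt U L := ⟨p.u.filter B, p.lab⟩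

theorem Dt.res_le {U L : Type} (p : Dt U L) (B : U → Prop) : (p.res B).le p :=
  ⟨Finset.filter_subset _ _, fun _ _ _ _ => rfl⟩

theorem Dt.le.res {U L : Type} {p q : Dt U L} (h : p.le q) (B : U → Prop) :
    (p.res B).le (q.res B) :=
  ⟨Finset.filter_subset_filter _ h.1, fun x hx y hy =>
    h.2 x (Finset.mem_filter.1 hx).1 y (Finset.mem_filter.1 hy).1⟩

/-- Coordinates with names for sets of nodes. -/
structure Frame (T Λ : Type) where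
  lt : Λ → Λ → Prop
  wf : WellFounded lt
  tr : ∀ {a b c}, lt a b → lt b c → lt a c
  Hit : Λ → T → Dt (T ⊕ Λ) ℕ → Prop
  mono : ∀ {ξ σ p q}, p.le q → Hit ξ σ p → Hit ξ σ q
  loc : ∀ {ξ σ p}, Hit ξ σ p → Hit ξ σ (p.res fun x => ∀ η, x = inr η → lt η ξ)
  g : T → Λ → ℕ

variable {T Λ : Type} (F : Frame T Λ)

namespace Frame

def Bel (ξ : Λ) (x : T ⊕ Λ) : Prop := ∀ η, x = inr η → F.lt η ξ

def Dec' (η : Λ) (G : ∀ ζ, F.lt ζ η → Dt (T ⊕ Λ) ℕ → Prop) (σ : T) (b : Bool)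
    (p : Dt (T ⊕ Λ) ℕ) : Prop :=
  if b then F.Hit η σ p else ∀ p' : Dt (T ⊕ Λ) ℕ, (∀ ζ h, inr ζ ∈ p'.u → G ζ h p') →
    (p.res (F.Bel η)).le p' → ¬ F.Hit η σ p'

def Good' (η : Λ) (D : T → Bool → Dt (T ⊕ Λ) ℕ → Prop) (p : Dt (T ⊕ Λ) ℕ) : Prop :=
  (∀ σ, inl σ ∈ p.u → F.g σ η < p.lab (inr η) (inl σ)) ∧
  ∀ σ τ, σ ≠ τ → inl σ ∈ p.u → inl τ ∈ p.u → p.lab (inr η) (inl σ) ≤ p.lab (inl σ) (inl τ) →
    p.lab (inr η) (inl τ) ≤ p.lab (inl τ) (inl σ) → ∃ b, D σ b p ∧ D τ b p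

noncomputable def Good : Λ → Dt (T ⊕ Λ) ℕ → Prop :=
  F.wf.fix fun η G => F.Good' η (F.Dec' η G)

def Dec (η : Λ) : T → Bool → Dt (T ⊕ Λ) ℕ → Prop := F.Dec' η fun ζ _ => F.Good ζ

theorem good_iff (η : Λ) : F.Good η = F.Good' η (F.Dec η) := by
  rw [Good, WellFounded.fix_eq]; rfl

/-- Conditions. -/
def IsC (p : Dt (T ⊕ Λ) ℕ) : Prop := ∀ η, inr η ∈ p.u → F.Good η p

variable {F}

theorem dec_true {η σ p} : F.Dec η σ true p ↔ F.Hit η σ p := by simp [Dec, Dec']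

theorem dec_false {η σ p} : F.Dec η σ false p ↔ ∀ p' : Dt (T ⊕ Λ) ℕ,
    (∀ ζ, F.lt ζ η → inr ζ ∈ p'.u → F.Good ζ p') → (p.res (F.Bel η)).le p' → ¬ F.Hit η σ p' := by
  simp [Dec, Dec']

theorem Dec.mono {η σ b p q} (h : p.le q) (hd : F.Dec η σ b p) : F.Dec η σ b q := by
  cases b
  · rw [dec_false] at hd ⊢
    exact fun p' h1 h2 => hd p' h1 ((h.res _).trans h2)
  · exact dec_true.2 (F.mono h (dec_true.1 hd))

theorem Dec.res {η ζ σ b p} (h : F.lt ζ η) (hd : F.Dec ζ σ b p) :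
    F.Dec ζ σ b (p.res (F.Bel η)) := by
  have h1 : (p.res (F.Bel ζ)).le ((p.res (F.Bel η)).res (F.Bel ζ)) :=
    ⟨fun x hx => by
      simp only [Dt.res, Finset.mem_filter] at hx ⊢
      exact ⟨⟨hx.1, fun ξ e => F.tr (hx.2 ξ e) h⟩, hx.2⟩, fun _ _ _ _ => rfl⟩
  cases b
  · rw [dec_false] at hd ⊢
    exact fun p' h2 h3 => hd p' h2 (h1.trans h3)
  · exact dec_true.2 (F.mono (h1.trans (Dt.res_le _ _)) (F.loc (dec_true.1 hd)))

theorem Good.res {η ζ p} (h : F.lt ζ η) (hd : F.Good ζ p) : F.Good ζ (p.res (F.Bel η)) := by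
  rw [good_iff] at hd ⊢
  exact ⟨fun σ h1 => hd.1 σ (Finset.mem_filter.1 h1).1, fun σ τ h1 h2 h3 h4 h5 =>
    (hd.2 σ τ h1 (Finset.mem_filter.1 h2).1 (Finset.mem_filter.1 h3).1 h4 h5).imp
      fun _ h' => ⟨h'.1.res h, h'.2.res h⟩⟩

theorem IsC.not_hit {η σ p q} (hq : F.IsC q) (h : p.le q) (hd : F.Dec η σ false p) :
    ¬ F.Hit η σ q :=
  dec_false.1 hd q (fun ζ _ => hq ζ) ((Dt.res_le _ _).trans h)

theorem amalgamate {p q : Dt (T ⊕ Λ) ℕ} (hp : F.IsC p) (hq : F.IsC q) (ha : p.Agree q)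
    (c : T → T → ℕ) (H : ∀ σ τ ξ, inl σ ∈ p.u → inl σ ∉ q.u → inl τ ∈ q.u → inl τ ∉ p.u →
      inr ξ ∈ p.u → inr ξ ∈ q.u → p.lab (inr ξ) (inl σ) ≤ c σ τ → q.lab (inr ξ) (inl τ) ≤ c τ σ →
        ∃ b, F.Dec ξ σ b p ∧ F.Dec ξ τ b q) :
    ∃ r, F.IsC r ∧ p.le r ∧ q.le r ∧ ∀ σ τ, ¬ (inl σ ∈ p.u ∧ inl τ ∈ p.u) →
      ¬ (inl σ ∈ q.u ∧ inl τ ∈ q.u) → r.lab (inl σ) (inl τ) = c σ τ := by
  let m : (T ⊕ Λ → T ⊕ Λ → ℕ) → T ⊕ Λ → T ⊕ Λ → ℕ := fun d x y =>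
    if x ∈ p.u ∧ y ∈ p.u then p.lab x y else if x ∈ q.u ∧ y ∈ q.u then q.lab x y else d x y
  let d0 : T ⊕ Λ → T ⊕ Λ → ℕ := fun x y => x.elim (fun σ => y.elim (c σ) 0) 0
  let d : T ⊕ Λ → T ⊕ Λ → ℕ := fun x y => x.elim (fun _ => d0 x y)
    fun ξ => y.elim (fun σ => F.g σ ξ + 1 + (p.u ∪ q.u).sup (m d0 y)) 0
  let r : Dt (T ⊕ Λ) ℕ := ⟨p.u ∪ q.u, m d⟩
  have h1 : p.le r := ⟨Finset.subset_union_left, fun x hx y hy => if_pos ⟨hx, hy⟩⟩
  have h2 : q.le r := ⟨Finset.subset_union_right, fun x hx y hy => by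
    by_cases h : x ∈ p.u ∧ y ∈ p.u
    · exact (if_pos h).trans (ha x h.1 hx y h.2 hy)
    · exact (if_neg h).trans (if_pos ⟨hx, hy⟩)⟩
  have h3 : ∀ σ τ, ¬ (inl σ ∈ p.u ∧ inl τ ∈ p.u) → ¬ (inl σ ∈ q.u ∧ inl τ ∈ q.u) →
      r.lab (inl σ) (inl τ) = c σ τ := fun σ τ h h' => (if_neg h).trans (if_neg h')
  have h4 : ∀ ξ σ, ¬ (inr ξ ∈ p.u ∧ inl σ ∈ p.u) → ¬ (inr ξ ∈ q.u ∧ inl σ ∈ q.u) →
      r.lab (inr ξ) (inl σ) = F.g σ ξ + 1 + (p.u ∪ q.u).sup (r.lab (inl σ)) :=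
    fun ξ σ h h' => (if_neg h).trans (if_neg h')
  have h5 : ∀ ξ σ τ, inl τ ∈ r.u → r.lab (inr ξ) (inl σ) ≤ r.lab (inl σ) (inl τ) →
      (inr ξ ∈ p.u ∧ inl σ ∈ p.u) ∨ (inr ξ ∈ q.u ∧ inl σ ∈ q.u) := fun ξ σ τ h h' => by
    by_contra hn
    rw [not_or] at hn
    have := Finset.le_sup (f := r.lab (inl σ)) h
    rw [h4 ξ σ hn.1 hn.2] at h'
    exact absurd (h'.trans this) (by simp only [r]; omega)
  have h6 : ∀ s : Dt (T ⊕ Λ) ℕ, F.IsC s → s.le r → ∀ ξ σ τ, σ ≠ τ → inr ξ ∈ s.u → inl σ ∈ s.u →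
      inl τ ∈ s.u → r.lab (inr ξ) (inl σ) ≤ r.lab (inl σ) (inl τ) →
      r.lab (inr ξ) (inl τ) ≤ r.lab (inl τ) (inl σ) → ∃ b, F.Dec ξ σ b r ∧ F.Dec ξ τ b r :=
    fun s hs h ξ σ τ e g1 g2 g3 g4 g5 => by
      have := hs ξ g1
      rw [good_iff] at this
      rw [h.2 _ g1 _ g2, h.2 _ g2 _ g3] at g4
      rw [h.2 _ g1 _ g3, h.2 _ g3 _ g2] at g5
      exact (this.2 σ τ e g2 g3 g4 g5).imp fun _ h' => ⟨h'.1.mono h, h'.2.mono h⟩
  have h7 : ∀ ξ σ τ, σ ≠ τ → inr ξ ∈ p.u → inl σ ∈ p.u → inr ξ ∈ q.u → inl τ ∈ q.u →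
      r.lab (inr ξ) (inl σ) ≤ r.lab (inl σ) (inl τ) →
      r.lab (inr ξ) (inl τ) ≤ r.lab (inl τ) (inl σ) → ∃ b, F.Dec ξ σ b r ∧ F.Dec ξ τ b r :=
    fun ξ σ τ e g1 g2 g3 g4 g5 g6 => by
      by_cases a1 : inl τ ∈ p.u
      · exact h6 p hp h1 ξ σ τ e g1 g2 a1 g5 g6
      by_cases a2 : inl σ ∈ q.u
      · exact h6 q hq h2 ξ σ τ e g3 a2 g4 g5 g6
      rw [h1.2 _ g1 _ g2, h3 σ τ (fun h => a1 h.2) fun h => a2 h.1] at g5
      rw [h2.2 _ g3 _ g4, h3 τ σ (fun h => a1 h.1) fun h => a2 h.2] at g6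
      exact (H σ τ ξ g2 a2 g4 a1 g1 g3 g5 g6).imp fun _ h' => ⟨h'.1.mono h1, h'.2.mono h2⟩
  refine ⟨r, fun ξ _ => ?_, h1, h2, h3⟩
  rw [good_iff]
  refine ⟨fun σ _ => ?_, fun σ τ e g1 g2 g3 g4 => ?_⟩
  · by_cases a1 : inr ξ ∈ p.u ∧ inl σ ∈ p.u
    · have := hp ξ a1.1
      rw [good_iff] at this
      exact h1.2 _ a1.1 _ a1.2 ▸ this.1 σ a1.2
    by_cases a2 : inr ξ ∈ q.u ∧ inl σ ∈ q.u
    · have := hq ξ a2.1
      rw [good_iff] at this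
      exact h2.2 _ a2.1 _ a2.2 ▸ this.1 σ a2.2
    rw [h4 ξ σ a1 a2]
    omega
  rcases h5 ξ σ τ g2 g3 with a1 | a1 <;> rcases h5 ξ τ σ g1 g4 with a2 | a2
  · exact h6 p hp h1 ξ σ τ e a1.1 a1.2 a2.2 g3 g4
  · exact h7 ξ σ τ e a1.1 a1.2 a2.1 a2.2 g3 g4
  · exact (h7 ξ τ σ e.symm a2.1 a2.2 a1.1 a1.2 g4 g3).imp fun _ => And.symm
  · exact h6 q hq h2 ξ σ τ e a1.1 a1.2 a2.2 g3 g4

theorem compat {p q : Dt (T ⊕ Λ) ℕ} (hp : F.IsC p) (hq : F.IsC q) (ha : p.Agree q) :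
    ∃ r, F.IsC r ∧ p.le r ∧ q.le r := by
  obtain ⟨r, h1, h2, h3, -⟩ := amalgamate hp hq ha 0 fun σ τ ξ h1 _ _ _ h2 _ h3 _ => by
    have := hp ξ h2
    rw [good_iff] at this
    exact absurd ((this.1 σ h1).trans_le h3) (Nat.not_lt_zero _)
  exact ⟨r, h1, h2, h3⟩

theorem exists_atom {p : Dt (T ⊕ Λ) ℕ} (hp : F.IsC p) (x : T ⊕ Λ) :
    ∃ r, F.IsC r ∧ p.le r ∧ x ∈ r.u := by
  by_cases h : x ∈ p.u
  · exact ⟨p, hp, p.le_refl, h⟩
  obtain ⟨r, h1, h2, h3⟩ := compat (q := ⟨{x}, 0⟩) hp (fun ξ hξ => by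
    rw [good_iff]
    have : ∀ σ, inl σ ∉ ({x} : Finset (T ⊕ Λ)) := fun σ e => by
      rw [← Finset.mem_singleton.1 hξ] at e; simp at e
    exact ⟨fun σ e => absurd e (this σ), fun σ _ _ e => absurd e (this σ)⟩)
    fun y h1 h2 => absurd (Finset.mem_singleton.1 h2 ▸ h1) h
  exact ⟨r, h1, h2, h3.1 (Finset.mem_singleton_self x)⟩

theorem exists_dec {p : Dt (T ⊕ Λ) ℕ} (hp : F.IsC p) (ξ : Λ) (σ : T) :
    ∃ r, F.IsC r ∧ p.le r ∧ ∃ b, F.Dec ξ σ b r := by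
  by_cases h : F.Dec ξ σ false p
  · exact ⟨p, hp, p.le_refl, _, h⟩
  rw [dec_false] at h
  push Not at h
  obtain ⟨q, h1, h2, h3⟩ := h
  obtain ⟨r, h4, h5, h6⟩ := compat (q := q.res (F.Bel ξ)) hp (fun ζ hζ =>
    let h := Finset.mem_filter.1 hζ; (h1 ζ (h.2 ζ rfl) h.1).res (h.2 ζ rfl))
    fun x g1 g2 y g3 g4 => (h2.2 x (Finset.mem_filter.2 ⟨g1, (Finset.mem_filter.1 g2).2⟩) y
      (Finset.mem_filter.2 ⟨g3, (Finset.mem_filter.1 g4).2⟩)).symm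
  exact ⟨r, h4, h5, true, dec_true.2 (F.mono h6 (F.loc h3))⟩

theorem exists_fin {A : Type} {D : A → Dt (T ⊕ Λ) ℕ → Prop}
    (hm : ∀ a p q, p.le q → D a p → D a q) (hd : ∀ a p, F.IsC p → ∃ r, F.IsC r ∧ p.le r ∧ D a r)
    (s : Finset A) {p : Dt (T ⊕ Λ) ℕ} (hp : F.IsC p) : ∃ r, F.IsC r ∧ p.le r ∧ ∀ a ∈ s, D a r := by
  induction s using Finset.induction_on with
  | empty => exact ⟨p, hp, p.le_refl, by simp⟩
  | insert a s _ ih =>
    obtain ⟨r, h1, h2, h3⟩ := ih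
    obtain ⟨r', h4, h5, h6⟩ := hd a r h1
    exact ⟨r', h4, h2.trans h5, fun b hb => (Finset.mem_insert.1 hb).elim (fun e => e ▸ h6)
      fun e => hm _ _ _ h5 (h3 b e)⟩

/-- A strong form of the countable chain condition. -/
theorem ccc (A : Set (Dt (T ⊕ Λ) ℕ)) (hA : ∀ p ∈ A, F.IsC p) :
    ∃ B ⊆ A, B.Countable ∧ ∀ p ∈ A, ∃ q ∈ B, ∃ r, F.IsC r ∧ p.le r ∧ q.le r := by
  obtain ⟨B, h1, h2, h3⟩ := exists_ctb_agree 0 A
  exact ⟨B, h1, h2, fun p hp => let ⟨q, h4, h5⟩ := h3 p hp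
    ⟨q, h4, compat (hA p hp) (hA q (h1 h4)) h5⟩⟩

end Frame

end Pool.Agent.MP_57347c_gt.H92

end MrgPart1

-- ======== part 2: formerly Pool.Agent.MP_57347c_gt.h92.Frame
section MrgPart2

/-! A frame in which every countably valued name is a coordinate. -/

namespace Pool.Agent.MP_57347c_gt.H92

open Set Sum Function Cardinal
open scoped Classical

abbrev Sh (T : Type) := T → ℕ → Option (Dt (T ⊕ ℕ) ℕ)

abbrev Lam (T : Type) := WType fun o : Option (Sh T) => {_t : T × ℕ × ℕ // o.isSome}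

variable {T : Type}

def child (η ξ : Lam T) : Prop := ∃ o f t, ξ = WType.mk o f ∧ η = f t

theorem child_wf : WellFounded (child (T := T)) := ⟨fun ξ => by
  induction ξ with
  | mk o f ih =>
    refine ⟨_, ?_⟩
    rintro η ⟨o', f', t, e, rfl⟩
    obtain ⟨rfl, e⟩ := WType.mk.inj e
    obtain rfl := eq_of_heq e
    exact ih t⟩

def hit : Lam T → T → Dt (T ⊕ Lam T) ℕ → Prop
  | ⟨none, _⟩, _, _ => False
  | ⟨some s, f⟩, σ, p => ∃ i d, s σ i = some d ∧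
      ∀ x ∈ d.u, Sum.map id (fun j => f ⟨(σ, i, j), rfl⟩) x ∈ p.u ∧ ∀ y ∈ d.u,
        p.lab (Sum.map id (fun j => f ⟨(σ, i, j), rfl⟩) x)
          (Sum.map id (fun j => f ⟨(σ, i, j), rfl⟩) y) = d.lab x y

def frame (g : T → Lam T → ℕ) : Frame T (Lam T) where
  lt := Relation.TransGen child
  wf := child_wf.transGen
  tr := Relation.TransGen.trans
  Hit := hit
  mono := by
    rintro ⟨_ | s, f⟩ σ p q h h1
    · exact h1
    obtain ⟨i, d, h1, h2⟩ := h1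
    exact ⟨i, d, h1, fun x hx => ⟨h.1 (h2 x hx).1, fun y hy =>
      (h.2 _ (h2 x hx).1 _ (h2 y hy).1).trans ((h2 x hx).2 y hy)⟩⟩
  loc := by
    rintro ⟨_ | s, f⟩ σ p h1
    · exact h1
    obtain ⟨i, d, h1, h2⟩ := h1
    refine ⟨i, d, h1, fun x hx => ⟨Finset.mem_filter.2 ⟨(h2 x hx).1, fun η e => ?_⟩, (h2 x hx).2⟩⟩
    rcases x with x | j
    · simp at e
    · exact .single ⟨_, _, _, rfl, (Sum.inr.inj e).symm⟩
  g := g

instance : Nonempty (Lam T) := ⟨WType.mk none fun t => absurd t.2 (by simp)⟩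

theorem exists_shape {Λ : Type} [Nonempty Λ] (q : Dt (T ⊕ Λ) ℕ) :
    ∃ (e : ℕ → Λ) (d : Dt (T ⊕ ℕ) ℕ), d.u.image (Sum.map id e) = q.u ∧
      ∀ x y, d.lab x y = q.lab (Sum.map id e x) (Sum.map id e y) := by
  obtain ⟨e, he⟩ := countable_iff_exists_subset_range.1
    (q.u.countable_toSet.preimage (f := inr) inr_injective)
  obtain ⟨s, -, hs⟩ := (Finset.subset_set_image_iff (s := univ) (t := q.u)
    (f := Sum.map id e)).1 (by
      rintro (x | x) hx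
      · exact ⟨inl x, trivial, rfl⟩
      · obtain ⟨j, rfl⟩ := he hx
        exact ⟨inr j, trivial, rfl⟩)
  exact ⟨e, ⟨s, fun x y => _⟩, hs, fun _ _ => rfl⟩

theorem frame_full (g : T → Lam T → ℕ) (A : T → Set (Dt (T ⊕ Lam T) ℕ))
    (hA : ∀ σ, (A σ).Countable) : ∃ ξ, ∀ σ p, (frame g).Hit ξ σ p ↔ ∃ q ∈ A σ, q.le p := by
  have : Nonempty (Dt (T ⊕ Lam T) ℕ) := ⟨⟨∅, 0⟩⟩
  choose a ha using fun σ => countable_iff_exists_subset_range.1 (hA σ)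
  choose e d h1 h2 using exists_shape (T := T) (Λ := Lam T)
  refine ⟨WType.mk (some fun σ i => if a σ i ∈ A σ then some (d (a σ i)) else none)
    fun t => e (a t.1.1 t.1.2.1) t.1.2.2, fun σ p => ?_⟩
  have key : ∀ q : Dt (T ⊕ Lam T) ℕ, (∀ x ∈ (d q).u, Sum.map id (e q) x ∈ p.u ∧ ∀ y ∈ (d q).u,
      p.lab (Sum.map id (e q) x) (Sum.map id (e q) y) = (d q).lab x y) ↔ q.le p := fun q => by
    simp only [Dt.le, h2, Finset.subset_iff, ← h1 q, Finset.forall_mem_image]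
    exact ⟨fun h => ⟨fun x hx => (h x hx).1, fun x hx => (h x hx).2⟩,
      fun h x hx => ⟨h.1 hx, h.2 hx⟩⟩
  constructor
  · rintro ⟨i, d', h3, h4⟩
    dsimp only at h3
    split_ifs at h3 with h5
    obtain rfl := Option.some.inj h3
    exact ⟨_, h5, (key _).1 h4⟩
  · rintro ⟨q, h3, h4⟩
    obtain ⟨i, rfl⟩ := ha σ h3
    exact ⟨i, _, if_pos h3, (key _).2 h4⟩

theorem card_lam : #(Lam (List ℝ)) ≤ 2 ^ 𝔠 := by
  have h0 : #(List ℝ) = 𝔠 := by rw [mk_list_eq_mk, mk_real]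
  have h1 : ℵ₀ ≤ 2 ^ 𝔠 := aleph0_le_continuum.trans (cantor _).le
  have h2 : ((2 : Cardinal.{0}) ^ 𝔠) ^ 𝔠 = 2 ^ 𝔠 := by rw [← power_mul, continuum_mul_self]
  have h3 : #(List ℝ ⊕ ℕ) = 𝔠 := by simp [h0]
  have h4 : #(Dt (List ℝ ⊕ ℕ) ℕ) ≤ 2 ^ 𝔠 := by
    refine (mk_le_of_injective (f := fun d : Dt (List ℝ ⊕ ℕ) ℕ => (d.u, d.lab)) ?_).trans ?_
    · rintro ⟨_, _⟩ ⟨_, _⟩ e
      obtain ⟨rfl, rfl⟩ := Prod.mk.inj e
      rfl
    rw [mk_prod, lift_id, lift_id, mk_finset_of_infinite, ← power_def, ← power_def, h3, mk_nat,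
      power_eq_two_power aleph0_le_continuum (by simp) aleph0_le_continuum, h2]
    exact (mul_eq_right h1 (cantor _).le continuum_ne_zero).le
  have h5 : #(Sh (List ℝ)) ≤ 2 ^ 𝔠 := by
    rw [← power_def, ← power_def, mk_option, h0, mk_nat, ← power_mul, aleph0_mul_continuum, ← h2]
    exact power_le_power_right (add_le_of_le h1 h4 (one_le_aleph0.trans h1))
  refine WType.cardinalMk_le_of_le ((sum_le_sum _ (fun _ => 2 ^ 𝔠) fun o => ?_).trans ?_)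
  · refine (power_le_power_left (aleph0_pos.trans_le h1).ne' ?_).trans h2.le
    exact (mk_subtype_le _).trans_eq (by simp [h0])
  · rw [sum_const', mk_option]
    exact mul_le_of_le h1 (add_le_of_le h1 h5 (one_le_aleph0.trans h1)) le_rfl

/-- The node `x` is large over the set `X` of atoms. -/
def Sat {Λ : Type} (g : T → Λ → ℕ) (en : T → ℕ → T) (x : T) (X : Set (T ⊕ Λ)) : Prop :=
  (∀ m, {ξ | inr ξ ∈ X ∧ g x ξ ≤ m}.Finite) ∧ (∀ σ, inl σ ∈ X → ∃ i, en x i = σ) ∧ inl x ∉ X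

theorem exists_ek : ∃ (g : List ℝ → Lam (List ℝ) → ℕ) (en : List ℝ → ℕ → List ℝ),
    Surjective en ∧ ∀ ν (X : Set (List ℝ ⊕ Lam (List ℝ))), X.Countable →
      ∃ α, Sat g en (ν ++ [α]) X := by
  obtain ⟨ι⟩ : Nonempty (Lam (List ℝ) ↪ Set ℝ) := by
    rw [← le_def, mk_set, mk_real]; exact card_lam
  obtain ⟨e⟩ : Nonempty (ℝ ≃ (ℕ → ℝ) × (ℕ → ℕ → Prop) × (ℕ → List ℝ) × ℝ) := by
    rw [← Cardinal.eq]
    simp [mk_list_eq_mk, mk_real]
  refine ⟨fun x ξ => if h : ∃ i, (e (x.getLastD 0)).2.1 i = fun n => (e (x.getLastD 0)).1 n ∈ ι ξ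
    then Nat.find h else 0, fun x => (e (x.getLastD 0)).2.2.1,
    fun f => ⟨[e.symm (0, fun _ _ => True, f, 0)], by simp⟩, fun ν X hX => ?_⟩
  obtain ⟨a, ha⟩ := countable_iff_exists_subset_range.1 (hX.preimage (f := inr) inr_injective)
  obtain ⟨b, hb⟩ := countable_iff_exists_subset_range.1 (hX.preimage (f := inl) inl_injective)
  have h1 : ∀ i j, ∃ r, (r ∈ ι (a i) ↔ r ∈ ι (a j)) → a i = a j := fun i j => by
    by_contra h
    push Not at h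
    exact (h 0).2 (ι.injective (Set.ext fun r => (h r).1))
  choose y hy using h1
  obtain ⟨k, hk⟩ : ∃ k : ℝ, ∀ i, (e ((b i).getLastD 0)).2.2.2 ≠ k := by
    by_contra h
    push Not at h
    exact not_countable_real ((countable_range _).mono fun k _ => h k)
  let z : ℕ → ℝ := fun n => y n.unpair.1 n.unpair.2
  refine ⟨e.symm (z, fun i n => z n ∈ ι (a i), b, k), fun m => ?_, fun σ h => ?_, fun h => ?_⟩
  · refine ((finite_Iic m).image a).subset fun ξ ⟨h1, h2⟩ => ?_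
    obtain ⟨j, rfl⟩ := ha h1
    simp only [List.getLastD_concat, Equiv.apply_symm_apply] at h2
    have h3 : ∃ i, (fun n => z n ∈ ι (a i)) = fun n => z n ∈ ι (a j) := ⟨j, rfl⟩
    rw [dif_pos h3] at h2
    refine ⟨_, h2, hy _ _ ?_⟩
    simpa [z] using congrFun (Nat.find_spec h3) (Nat.pair (Nat.find h3) j)
  · simpa using hb h
  · obtain ⟨i, hi⟩ := hb h
    exact hk i (by simp [hi])

end Pool.Agent.MP_57347c_gt.H92

end MrgPart2

-- ======== part 3: formerly Pool.Agent.MP_57347c_gt.h92.Tree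
section MrgPart3

/-! Large trees of nodes and their canonical forms. -/

namespace Pool.Agent.MP_57347c_gt.H92

open Set Sum
open scoped Classical

variable {K Λ : Type} (F : Frame (List K) Λ) (en : List K → ℕ → List K)

def Sc (ν x : List K) : Prop := ∃ α, x = ν ++ [α]

theorem Sc.len {ν x : List K} (h : Sc ν x) : x.length = ν.length + 1 := by
  obtain ⟨α, rfl⟩ := h; simp

theorem Sc.take {ν x : List K} (h : Sc ν x) {a : ℕ} (ha : a ≤ ν.length) : x.take a = ν.take a := by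
  obtain ⟨α, rfl⟩ := h; exact List.take_append_of_le_length ha

theorem Sat.anti {T : Type} {g : T → Λ → ℕ} {en : T → ℕ → T} {x : T} {X Y : Set (T ⊕ Λ)}
    (h : X ⊆ Y) (hs : Sat g en x Y) : Sat g en x X :=
  ⟨fun m => (hs.1 m).subset fun _ h' => ⟨h h'.1, h'.2⟩, fun σ h' => hs.2.1 σ (h h'),
    fun h' => hs.2.2 (h h')⟩

def Pl : ℕ → List K → (List K → Prop) → Prop
  | 0, ν, Θ => Θ ν
  | e + 1, ν, Θ => ∀ X : Set (List K ⊕ Λ), X.Countable → ∃ x, Sc ν x ∧ Sat F.g en x X ∧ Pl e x Θ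

abbrev W (K Λ : Type) := Dt (List K ⊕ Λ) (ℕ × Finset (ℕ × Bool))

def W.c (w : W K Λ) : Dt (List K ⊕ Λ) ℕ := ⟨w.u, fun x y => (w.lab x y).1⟩

def Cm (w : W K Λ) (a : ℕ) (ξ : Λ) (b : Bool) : Prop :=
  inr ξ ∈ w.u ∧ (a, b) ∈ (w.lab (inr ξ) (inr ξ)).2

def New (w w' : W K Λ) (X : Set (List K ⊕ Λ)) : Prop := w.le w' ∧ ∀ y ∈ w'.u, y ∈ X → y ∈ w.u

def Stp (m : ℕ) (ν : List K) (w : W K Λ) (X : Set (List K ⊕ Λ)) (x : List K) (w' : W K Λ) : Prop :=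
  Sc ν x ∧ Sat F.g en x X ∧ (∀ ξ, inr ξ ∈ X → F.g x ξ ≤ m → ∃ b, Cm w (ν.length + 1) ξ b) ∧
    New w w' X

def Tr (m : ℕ) : ℕ → List K → W K Λ → (List K → W K Λ → Prop) → Prop
  | 0, ν, w, Φ => Φ ν w
  | e + 1, ν, w, Φ => ∀ X : Set (List K ⊕ Λ), X.Countable →
      ∃ x w', Stp F en m ν w X x w' ∧ Tr m e x w' Φ

variable {F en}

theorem c_le {w w' : W K Λ} (h : w.le w') : w.c.le w'.c :=
  ⟨h.1, fun x hx y hy => congrArg Prod.fst (h.2 x hx y hy)⟩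

theorem Cm.mono {w w' : W K Λ} (h : w.le w') {a ξ b} (hc : Cm w a ξ b) : Cm w' a ξ b :=
  ⟨h.1 hc.1, h.2 _ hc.1 _ hc.1 ▸ hc.2⟩

theorem New.cm {w w' : W K Λ} {X} (h : New w w' X) {a ξ b} (hc : Cm w' a ξ b) (hX : inr ξ ∈ X) :
    Cm w a ξ b :=
  have := h.2 _ hc.1 hX
  ⟨this, h.1.2 _ this _ this ▸ hc.2⟩

theorem New.anti {w w' : W K Λ} {X Y} (e : X ⊆ Y) (h : New w w' Y) : New w w' X :=
  ⟨h.1, fun y h1 h2 => h.2 y h1 (e h2)⟩

theorem New.trans {w w' w'' : W K Λ} {X} (h : New w w' X) (h' : New w' w'' X) : New w w'' X :=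
  ⟨h.1.trans h'.1, fun y h1 h2 => h.2 y (h'.2 y h1 h2) h2⟩

theorem Stp.anti {m ν w x w'} {X Y : Set (List K ⊕ Λ)} (e : X ⊆ Y) (h : Stp F en m ν w Y x w') :
    Stp F en m ν w X x w' :=
  ⟨h.1, h.2.1.anti e, fun ξ h' => h.2.2.1 ξ (e h'), h.2.2.2.anti e⟩

theorem Pl.mono {e ν} {Θ Θ' : List K → Prop} (h : Pl F en e ν Θ)
    (H : ∀ ρ, ρ.length = ν.length + e → (∀ a ≤ ν.length, ρ.take a = ν.take a) → Θ ρ → Θ' ρ) :
    Pl F en e ν Θ' := by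
  induction e generalizing ν with
  | zero => exact H ν rfl (fun _ _ => rfl) h
  | succ e ih =>
    intro X hX
    obtain ⟨x, h1, h2, h3⟩ := h X hX
    have := h1.len
    exact ⟨x, h1, h2, ih h3 fun ρ g1 g2 => H ρ (by omega) fun a ha =>
      (g2 a (by omega)).trans (h1.take ha)⟩

theorem Pl.exists {e ν} {Θ : List K → Prop} (h : Pl F en e ν Θ) : ∃ ρ, Θ ρ := by
  induction e generalizing ν with
  | zero => exact ⟨ν, h⟩
  | succ e ih => exact let ⟨_, _, _, h⟩ := h ∅ countable_empty; ih h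

theorem Pl.ctb {e ν} {Θ : ℕ → List K → Prop} (h : Pl F en e ν fun ρ => ∃ j, Θ j ρ) :
    ∃ j, Pl F en e ν (Θ j) := by
  induction e generalizing ν with
  | zero => exact h
  | succ e ih =>
    exact exists_forall_ctb (fun j X Y e ⟨x, h1, h2, h3⟩ => ⟨x, h1, h2.anti e, h3⟩) fun X hX =>
      let ⟨x, h1, h2, h3⟩ := h X hX; let ⟨j, h4⟩ := ih h3; ⟨j, x, h1, h2, h4⟩

theorem Pl.add {e e' ν} {Θ : List K → Prop} (h : Pl F en e ν fun ρ => Pl F en e' ρ Θ) :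
    Pl F en (e' + e) ν Θ := by
  induction e generalizing ν with
  | zero => exact h
  | succ e ih => exact fun X hX => let ⟨x, h1, h2, h3⟩ := h X hX; ⟨x, h1, h2, ih h3⟩

theorem Pl.reach (ek : ∀ ν (X : Set (List K ⊕ Λ)), X.Countable → ∃ α, Sat F.g en (ν ++ [α]) X)
    {Θ : List K → Prop} (h : ∀ f : ℕ → List K, (∀ n, Sc (f n) (f (n + 1))) → ∃ n, Θ (f n))
    (ν : List K) : ∃ e, Pl F en e ν Θ := by
  by_contra hn
  have h1 : ∀ ν, (¬ ∃ e, Pl F en e ν Θ) → ∃ x, (¬ ∃ e, Pl F en e x Θ) ∧ Sc ν x := fun ν h1 => by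
    by_contra h2
    push Not at h2
    obtain ⟨e, he⟩ := exists_forall_ctb (R := fun e X => ∃ x, Sc ν x ∧ Sat F.g en x X ∧ Pl F en e x Θ)
      (fun j X Y e ⟨x, h1, h2, h3⟩ => ⟨x, h1, h2.anti e, h3⟩) fun X hX => by
        obtain ⟨α, h3⟩ := ek ν X hX
        by_contra h4
        exact h2 _ (fun e he => h4 ⟨e, _, ⟨α, rfl⟩, h3, he⟩) ⟨α, rfl⟩
    exact h1 ⟨e + 1, he⟩
  choose! s h2 h3 using h1
  have h4 : ∀ n, ¬ ∃ e, Pl F en e (s^[n] ν) Θ := fun n => by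
    induction n with
    | zero => exact hn
    | succ n ih => rw [Function.iterate_succ_apply']; exact h2 _ ih
  obtain ⟨n, h5⟩ := h (fun n => s^[n] ν) fun n => by
    rw [Function.iterate_succ_apply']; exact h3 _ (h4 n)
  exact h4 n ⟨0, h5⟩

theorem Tr.pl {m e ν w Φ} (h : Tr F en m e ν w Φ) {X0 : Set (List K ⊕ Λ)} (h0 : X0.Countable) :
    Pl F en e ν fun ρ => ∃ w', Φ ρ w' ∧ New w w' X0 := by
  induction e generalizing ν w with
  | zero => exact ⟨w, h, w.le_refl, fun _ h _ => h⟩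
  | succ e ih =>
    intro X hX
    obtain ⟨x, w', h1, h2⟩ := h _ (hX.union h0)
    exact ⟨x, h1.1, h1.2.1.anti subset_union_left, (ih h2).mono fun ρ _ _ ⟨w'', h3, h4⟩ =>
      ⟨w'', h3, (h1.2.2.2.anti subset_union_right).trans h4⟩⟩

theorem Tr.mono {m e ν w} {Φ Φ' : List K → W K Λ → Prop} (h : Tr F en m e ν w Φ)
    (H : ∀ ρ w', w.le w' → Φ ρ w' → Φ' ρ w') : Tr F en m e ν w Φ' := by
  induction e generalizing ν w with
  | zero => exact H ν w w.le_refl h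
  | succ e ih =>
    intro X hX
    obtain ⟨x, w', h1, h2⟩ := h X hX
    exact ⟨x, w', h1, ih h2 fun ρ w'' h3 => H ρ w'' (h1.2.2.2.1.trans h3)⟩

theorem canon (m : ℕ) {Θ : List K → Dt (List K ⊕ Λ) ℕ → Prop}
    (hΘ : ∀ ρ p q, p.le q → Θ ρ p → Θ ρ q) {e ν}
    (h : Pl F en e ν fun ρ => ∃ q, F.IsC q ∧ Θ ρ q) (s : Finset (ℕ × Λ)) :
    ∃ w, Tr F en m e ν w (fun ρ w => F.IsC w.c ∧ Θ ρ w.c ∧ (∀ a, inl (ρ.take a) ∈ w.u) ∧
      ∀ a ξ b, Cm w a ξ b → F.Dec ξ (ρ.take a) b w.c) ∧ ∀ z ∈ s, ∃ b, Cm w z.1 z.2 b := by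
  induction e generalizing ν s with
  | zero =>
    obtain ⟨q, h1, h2⟩ := h
    obtain ⟨q1, h3, h4, h5⟩ := Frame.exists_fin (D := fun x p => x ∈ p.u) (fun _ _ _ h h' => h.1 h')
      (fun x p hp => Frame.exists_atom hp x) ((s.image fun z => inr z.2) ∪
        (Finset.range (ν.length + 1)).image fun a => inl (ν.take a)) h1
    obtain ⟨r, h6, h7, h8⟩ := Frame.exists_fin (D := fun z p => ∃ b, F.Dec z.2 (ν.take z.1) b p)
      (fun _ _ _ h => Exists.imp fun _ => Frame.Dec.mono h) (fun z p hp => Frame.exists_dec hp _ _) s h3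
    refine ⟨⟨r.u, fun x y => (r.lab x y, (s.image Prod.fst ×ˢ Finset.univ).filter fun z =>
      ∀ ξ, x = inr ξ → F.Dec ξ (ν.take z.1) z.2 r)⟩, ⟨h6, hΘ _ _ _ (h4.trans h7) h2, fun a => ?_,
      fun a ξ b h => (Finset.mem_filter.1 h.2).2 ξ rfl⟩, fun z hz => ?_⟩
    · refine h7.1 (h5 _ (Finset.mem_union_right _ (Finset.mem_image.2
        ⟨min a ν.length, by simp, by simp⟩)))
    · obtain ⟨b, hb⟩ := h8 z hz
      exact ⟨b, h7.1 (h5 _ (Finset.mem_union_left _ (Finset.mem_image_of_mem _ hz))),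
        Finset.mem_filter.2 ⟨Finset.mem_product.2 ⟨Finset.mem_image_of_mem _ hz, Finset.mem_univ _⟩,
          fun ξ e => inr_injective e ▸ hb⟩⟩
  | succ e ih =>
    obtain ⟨w0, h0⟩ := press (L := Unit) () (R := fun X w => ∃ x, Sc ν x ∧ Sat F.g en x X ∧
        Pl F en e x (fun ρ => ∃ q, F.IsC q ∧ Θ ρ q) ∧ ∀ ξ, inr ξ ∈ X → F.g x ξ ≤ m → inr ξ ∈ w.u)
      (fun X Y w e ⟨x, h1, h2, h3, h4⟩ => ⟨x, h1, h2.anti e, h3, fun ξ h => h4 ξ (e h)⟩)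
      fun X hX => by
        obtain ⟨x, h1, h2, h3⟩ := h X hX
        exact ⟨⟨(h2.1 m).toFinset.image inr, fun _ _ => ()⟩, x, h1, h2, h3, fun ξ h4 h5 =>
          Finset.mem_image_of_mem _ ((Finite.mem_toFinset _).2 ⟨h4, h5⟩)⟩
    let s' := s ∪ (w0.u.preimage inr inr_injective.injOn).image fun ξ => (ν.length + 1, ξ)
    obtain ⟨w, h1⟩ := press (0, ∅) (R := fun X (w : W K Λ) => ∃ x, Sc ν x ∧ Sat F.g en x X ∧
        (∀ ξ, inr ξ ∈ X → F.g x ξ ≤ m → (ν.length + 1, ξ) ∈ s') ∧ Tr F en m e x w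
          (fun ρ w => F.IsC w.c ∧ Θ ρ w.c ∧ (∀ a, inl (ρ.take a) ∈ w.u) ∧
            ∀ a ξ b, Cm w a ξ b → F.Dec ξ (ρ.take a) b w.c) ∧ ∀ z ∈ s', ∃ b, Cm w z.1 z.2 b)
      (fun X Y w e ⟨x, h1, h2, h3, h4⟩ => ⟨x, h1, h2.anti e, fun ξ h => h3 ξ (e h), h4⟩)
      fun X hX => by
        obtain ⟨w1, ⟨x, h1, h2, h3, h4⟩, -, h5⟩ := h0 X hX
        obtain ⟨w, h6⟩ := ih h3 s'
        exact ⟨w, x, h1, h2, fun ξ g1 g2 => Finset.mem_union_right _ (Finset.mem_image_of_mem _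
          (Finset.mem_preimage.2 (h5 _ (h4 ξ g1 g2) g1))), h6⟩
    have h2 : ∀ z ∈ s', ∃ b, Cm w z.1 z.2 b := fun z hz => by
      obtain ⟨w', ⟨_, -, -, -, -, h2⟩, h3⟩ := h1 _ (countable_singleton (inr z.2))
      exact (h2 z hz).imp fun _ h => New.cm h3 h rfl
    refine ⟨w, fun X hX => ?_, fun z hz => h2 z (Finset.mem_union_left _ hz)⟩
    obtain ⟨w', ⟨x, h3, h4, h5, h6, -⟩, h7⟩ := h1 X hX
    exact ⟨x, w', ⟨h3, h4, fun ξ g1 g2 => h2 _ (h5 ξ g1 g2), h7⟩, h6⟩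

end Pool.Agent.MP_57347c_gt.H92

end MrgPart3

-- ======== part 4: formerly Pool.Agent.MP_57347c_gt.h92.Sys
section MrgPart4

/-! Nested systems of trees, candidate paths and the construction of infinite cliques. -/

namespace Pool.Agent.MP_57347c_gt.H92

open Set Sum Function
open scoped Classical

variable {K Λ : Type} {F : Frame (List K) Λ} {en : List K → ℕ → List K}

theorem exists_chain' {S : Type} {P : ℕ → S → Prop} {R : ℕ → S → S → Prop} {s0 : S} (h0 : P 0 s0)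
    (h : ∀ n s, P n s → ∃ s', P (n + 1) s' ∧ R n s s') :
    ∃ s : ℕ → S, s 0 = s0 ∧ ∀ n, P n (s n) ∧ R n (s n) (s (n + 1)) := by
  choose! G h1 h2 using h
  let s : ℕ → S := fun n => Nat.rec s0 G n
  have h3 : ∀ n, P n (s n) := fun n => by
    induction n with
    | zero => exact h0
    | succ n ih => exact h1 n _ ih
  exact ⟨s, rfl, fun n => ⟨h3 n, h2 n _ (h3 n)⟩⟩

theorem exists_paths {J : Type} [Countable J] {m : J → ℕ} {w : J → W K Λ}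
    {Φ : J → List K → W K Λ → Prop} (h : ∀ j, Tr F en (m j) (m j) [] (w j) (Φ j)) :
    ∃ (ρ : J → List K) (q : J → W K Λ) (C : Set (List K ⊕ Λ)),
      (∀ j, Φ j (ρ j) (q j) ∧ New (w j) (q j) C ∧ (ρ j).length = m j) ∧
      (∀ j j', j ≠ j' → ∀ y ∈ (q j).u, y ∈ (q j').u → y ∈ C) ∧
      (∀ j a, a < m j → inl ((ρ j).take (a + 1)) ∉ C ∧
        (∀ j', a ≤ m j' → ∃ i, en ((ρ j).take (a + 1)) i = (ρ j').take a) ∧
        ∀ ξ, inr ξ ∈ C → F.g ((ρ j).take (a + 1)) ξ ≤ m j → ∃ b, Cm (w j) (a + 1) ξ b) := by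
  let C : Set (List K ⊕ Λ) := ⋃ j, (w j).u
  let At : List K × W K Λ → Set (List K ⊕ Λ) := fun y => insert (inl y.1) y.2.u
  have hAt : ∀ y, (At y).Countable := fun y => y.2.u.countable_toSet.insert _
  let R : ℕ → (J → List K × W K Λ) → J → Set (List K ⊕ Λ) → List K × W K Λ → Prop :=
    fun a s j X y => New (s j).2 y.2 X ∧ (a < m j → Stp F en (m j) (s j).1 (s j).2 X y.1 y.2 ∧
      Tr F en (m j) (m j - (a + 1)) y.1 y.2 (Φ j)) ∧ (m j ≤ a → y = s j)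
  obtain ⟨s, s0, hs⟩ := exists_chain' (s0 := fun j => ([], w j))
    (P := fun a s => ∀ j, a ≤ m j → (s j).1.length = a ∧
      Tr F en (m j) (m j - a) (s j).1 (s j).2 (Φ j))
    (R := fun a s s' => (∀ j, R a s j (C ∪ ⋃ j, At (s j)) (s' j)) ∧
      ∀ j j', j ≠ j' → R a s j (At (s' j')) (s' j) ∨ R a s j' (At (s' j)) (s' j'))
    (fun j _ => ⟨rfl, h j⟩) fun a s hs => by
      obtain ⟨s', h1⟩ := exists_level At hAt (R := R a s)
        (fun j X X' y e h => ⟨h.1.anti e, fun h' => ⟨(h.2.1 h').1.anti e, (h.2.1 h').2⟩, h.2.2⟩)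
        (fun j X hX => by
          rcases lt_or_ge a (m j) with h1 | h1
          · have h2 := (hs j h1.le).2
            rw [show m j - a = m j - (a + 1) + 1 by omega] at h2
            obtain ⟨x, w', h3, h4⟩ := h2 X hX
            exact ⟨(x, w'), h3.2.2.2, fun _ => ⟨h3, h4⟩, fun h => absurd h1 h.not_gt⟩
          · exact ⟨s j, ⟨Dt.le_refl _, fun _ h _ => h⟩, fun h => absurd h h1.not_gt, fun _ => rfl⟩)
        ((countable_iUnion fun j => (w j).u.countable_toSet).union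
          (countable_iUnion fun j => hAt (s j)))
      exact ⟨s', fun j hj => ⟨by rw [((h1.1 j).2.1 hj).1.1.len, (hs j (by omega)).1],
        ((h1.1 j).2.1 hj).2⟩, h1⟩
  have h1 : ∀ a j, New (w j) (s a j).2 C := fun a j => by
    induction a with
    | zero => rw [s0]; exact ⟨Dt.le_refl _, fun _ h _ => h⟩
    | succ a ih => exact ih.trans (((hs a).2.1 j).1.anti subset_union_left)
  have h2 : ∀ j a, m j ≤ a → s a j = s (m j) j := fun j a h => by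
    induction h with
    | refl => rfl
    | step h ih => exact (((hs _).2.1 j).2.2 h).trans ih
  have h3 : ∀ j a a', a ≤ a' → a' ≤ m j → (s a' j).1.take a = (s a j).1 := fun j a a' h h' => by
    induction h with
    | refl => exact List.take_of_length_le ((hs a).1 j h').1.le
    | @step b h ih =>
      rw [(((hs b).2.1 j).2.1 h').1.1.take (by rw [((hs b).1 j (by omega)).1]; exact h)]
      exact ih (by omega)
  have h4 : ∀ a j j', j ≠ j' → ∀ y ∈ (s a j).2.u, y ∈ (s a j').2.u → y ∈ C := fun a => by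
    induction a with
    | zero => exact fun j _ _ y hy _ => mem_iUnion.2 ⟨j, by rwa [s0] at hy⟩
    | succ a ih =>
      have key : ∀ j j', j ≠ j' → R a (s a) j (At (s (a + 1) j')) (s (a + 1) j) →
          ∀ y ∈ (s (a + 1) j).2.u, y ∈ (s (a + 1) j').2.u → y ∈ C := fun j j' e h y g1 g2 =>
        have g3 := h.1.2 y g1 (Or.inr g2)
        ih j j' e y g3 (((hs a).2.1 j').1.2 y g2 (Or.inr (mem_iUnion.2 ⟨j, Or.inr g3⟩)))
      exact fun j j' e y g1 g2 => ((hs a).2.2 j j' e).elim (fun h => key j j' e h y g1 g2)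
        fun h => key j' j e.symm h y g2 g1
  refine ⟨fun j => (s (m j) j).1, fun j => (s (m j) j).2, C, fun j => ⟨?_, h1 _ j,
    ((hs _).1 j le_rfl).1⟩, fun j j' e y g1 g2 => h4 (max (m j) (m j')) j j' e y
      (by rwa [h2 j _ (le_max_left _ _)]) (by rwa [h2 j' _ (le_max_right _ _)]), fun j a ha => ?_⟩
  · simpa [Tr] using ((hs _).1 j le_rfl).2
  obtain ⟨-, h5, h6, -⟩ := (((hs a).2.1 j).2.1 ha).1
  rw [h3 j _ _ ha le_rfl]
  refine ⟨fun h => h5.2.2 (Or.inl h), fun j' h => ?_, fun ξ g1 g2 => ?_⟩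
  · rw [h3 j' _ _ h le_rfl]
    exact h5.2.1 _ (Or.inr (mem_iUnion.2 ⟨j', Or.inl rfl⟩))
  · rw [((hs a).1 j ha.le).1] at h6
    exact (h6 ξ (Or.inl g1) g2).imp fun _ h => (h1 a j).cm h g1

structure Sys (K Λ : Type) where
  m : ℕ
  w : W K Λ
  Γ : Set (ℕ × Λ × Bool)

def Ter (F : Frame (List K) Λ) (A : List K → Dt (List K ⊕ Λ) ℕ → Prop) (Γ : Set (ℕ × Λ × Bool))
    (ρ : List K) (w : W K Λ) : Prop :=
  F.IsC w.c ∧ A ρ w.c ∧ (∀ a < ρ.length, inl (ρ.take (a + 1)) ∈ w.u) ∧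
    ∀ z ∈ Γ, F.Dec z.2.1 (ρ.take z.1) z.2.2 w.c

def Valid (F : Frame (List K) Λ) (en : List K → ℕ → List K)
    (A : List K → Dt (List K ⊕ Λ) ℕ → Prop) (S : Sys K Λ) : Prop :=
  Tr F en S.m S.m [] S.w (Ter F A S.Γ) ∧ (∀ z ∈ S.Γ, z.1 ≤ S.m) ∧
    ∀ a ≤ S.m, ∀ ξ b, Cm S.w a ξ b → (a, ξ, b) ∈ S.Γ

variable (ek : ∀ ν (X : Set (List K ⊕ Λ)), X.Countable → ∃ α, Sat F.g en (ν ++ [α]) X)
include ek

theorem Valid.step {A A' : List K → Dt (List K ⊕ Λ) ℕ → Prop}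
    (hm : ∀ ρ p q, p.le q → A' ρ p → A' ρ q) {S : Sys K Λ} (hS : Valid F en A S)
    {p : Dt (List K ⊕ Λ) ℕ} (hp : F.IsC p) (hw : S.w.c.le p)
    (hA : ∀ f : ℕ → List K, (∀ n, Sc (f n) (f (n + 1))) → ∀ q, F.IsC q → p.le q →
      ∃ r, F.IsC r ∧ q.le r ∧ ∃ n, A' (f n) r) :
    ∃ S' p', (Valid F en A' S' ∧ S.Γ ⊆ S'.Γ) ∧ F.IsC p' ∧ p.le p' ∧ S'.w.c.le p' := by
  let Θ : List K → Dt (List K ⊕ Λ) ℕ → Prop := fun ρ q => p.le q ∧ A' ρ q ∧
    ∀ z ∈ S.Γ, F.Dec z.2.1 (ρ.take z.1) z.2.2 q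
  obtain ⟨e, h1⟩ := ((hS.1.pl p.u.countable_toSet).mono (Θ' := fun ρ => ∃ e, Pl F en e ρ
      fun ρ => ∃ q, F.IsC q ∧ Θ ρ q) fun ρ h1 _ ⟨w, h2, h3⟩ => by
    obtain ⟨r, h4, h5, h6⟩ := Frame.compat hp h2.1 (Dt.agree_of hw (c_le h3.1)
      fun x g1 g2 => h3.2 x g2 g1)
    obtain ⟨e, he⟩ := Pl.reach ek (Θ := fun ρ => ∃ q, F.IsC q ∧ r.le q ∧ A' ρ q)
      (fun f hf => let ⟨q, g1, g2, n, g3⟩ := hA f hf r h4 h5; ⟨n, q, g1, g2, g3⟩) ρ
    exact ⟨e, he.mono fun ρ' _ g0 ⟨q, g1, g2, g3⟩ => ⟨q, g1, h5.trans g2, g3, fun z hz => by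
      rw [g0 _ (by simpa [h1] using hS.2.1 z hz)]
      exact (h2.2.2.2 z hz).mono (h6.trans g2)⟩⟩).ctb
  obtain ⟨w, h2, -⟩ := canon (e + S.m) (Θ := Θ) (fun ρ q r h h' => ⟨h'.1.trans h, hm _ _ _ h h'.2.1,
    fun z hz => (h'.2.2 z hz).mono h⟩) h1.add ∅
  obtain ⟨ρ, w', h3, h4⟩ := (h2.pl countable_empty).exists
  exact ⟨⟨e + S.m, w, S.Γ ∪ {z | z.1 ≤ e + S.m ∧ Cm w z.1 z.2.1 z.2.2}⟩, w'.c,
    ⟨⟨h2.mono fun ρ w' g1 g2 => ⟨g2.1, g2.2.1.2.1, fun a _ => g2.2.2.1 _, fun z hz =>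
      hz.elim (g2.2.1.2.2 z) fun hz => g2.2.2.2 _ _ _ (hz.2.mono g1)⟩,
    fun z hz => hz.elim (fun hz => (hS.2.1 z hz).trans (Nat.le_add_left _ _)) And.left,
    fun a h ξ b h' => Or.inr ⟨h, h'⟩⟩, subset_union_left⟩, h3.1, h3.2.1.1, c_le h4.1⟩

theorem exists_family {A : ℕ → List K → Dt (List K ⊕ Λ) ℕ → Prop}
    (hm : ∀ k ρ p q, p.le q → A k ρ p → A k ρ q) {p0 : Dt (List K ⊕ Λ) ℕ}
    (hA : ∀ k (f : ℕ → List K), (∀ n, Sc (f n) (f (n + 1))) → ∀ q, F.IsC q → p0.le q →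
      ∃ r, F.IsC r ∧ q.le r ∧ ∃ n, A k (f n) r) :
    ∃ B : ℕ → Set (Sys K Λ), (∀ k, (B k).Countable) ∧ (∃ S ∈ B 0, S.w.c.le p0) ∧
      (∀ k, ∀ S ∈ B k, Valid F en (fun ρ p => ∀ l, k = l + 1 → A l ρ p) S) ∧
      ∀ k, ∀ S ∈ B k, ∀ p, F.IsC p → p0.le p → S.w.c.le p →
        ∃ S' ∈ B (k + 1), S.Γ ⊆ S'.Γ ∧ ∃ p', F.IsC p' ∧ p.le p' ∧ S'.w.c.le p' := by
  have h1 : ∀ k (S : Sys K Λ), ∃ B : Set (Sys K Λ), B.Countable ∧
      (∀ S' ∈ B, Valid F en (fun ρ p => ∀ l, k + 1 = l + 1 → A l ρ p) S') ∧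
      (Valid F en (fun ρ p => ∀ l, k = l + 1 → A l ρ p) S → ∀ p, F.IsC p → p0.le p → S.w.c.le p →
        ∃ S' ∈ B, S.Γ ⊆ S'.Γ ∧ ∃ p', F.IsC p' ∧ p.le p' ∧ S'.w.c.le p') := fun k S => by
    obtain ⟨B, h1, h2, h3⟩ := F.ccc {p | F.IsC p ∧ ∃ S', (Valid F en
      (fun ρ p => ∀ l, k + 1 = l + 1 → A l ρ p) S' ∧ S.Γ ⊆ S'.Γ) ∧ S'.w.c.le p} fun _ => And.left
    choose G h4 h5 using fun p : B => (h1 p.2).2
    have := h2.to_subtype
    refine ⟨range G, countable_range _, forall_mem_range.2 fun p => (h4 p).1,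
      fun hS p g1 g2 g3 => ?_⟩
    obtain ⟨S', p', g4, g5, g6, g7⟩ := hS.step ek (A' := fun ρ p => ∀ l, k + 1 = l + 1 → A l ρ p)
      (fun ρ p q h h' l e => hm _ _ _ _ h (h' l e)) g1 g3 fun f hf q g4 g5 =>
        let ⟨r, a1, a2, n, a3⟩ := hA k f hf q g4 (g2.trans g5)
        ⟨r, a1, a2, n, fun l e => Nat.succ_injective e ▸ a3⟩
    obtain ⟨q, a1, r, a2, a3, a4⟩ := h3 p' ⟨g5, S', g4, g7⟩
    exact ⟨_, ⟨⟨q, a1⟩, rfl⟩, (h4 _).2, r, a2, g6.trans a3, (h5 _).trans a4⟩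
  choose G h2 h3 h4 using h1
  let B : ℕ → Set (Sys K Λ) := fun n =>
    Nat.rec {⟨0, ⟨∅, fun _ _ => (0, ∅)⟩, ∅⟩} (fun k B => ⋃ S ∈ B, G k S) n
  have h5 : ∀ k, ∀ S ∈ B k, Valid F en (fun ρ p => ∀ l, k = l + 1 → A l ρ p) S := by
    rintro (_ | k) S hS
    · obtain rfl := hS
      exact ⟨⟨fun _ h => absurd h (Finset.notMem_empty _), by simp, by simp, by simp⟩, by simp,
        fun _ _ _ _ h => absurd h.1 (Finset.notMem_empty _)⟩
    · obtain ⟨S', -, h⟩ := mem_iUnion₂.1 hS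
      exact h3 _ _ _ h
  refine ⟨B, fun k => ?_, ⟨_, rfl, Finset.empty_subset _, fun _ h => absurd h
    (Finset.notMem_empty _)⟩, h5, fun k S hS p g1 g2 g3 => ?_⟩
  · induction k with
    | zero => exact countable_singleton _
    | succ k ih => exact ih.biUnion fun S _ => h2 k S
  · obtain ⟨S', g4, g5⟩ := h4 k S (h5 k S hS) p g1 g2 g3
    exact ⟨S', mem_biUnion hS g4, g5⟩

theorem exists_states {A : ℕ → List K → Dt (List K ⊕ Λ) ℕ → Prop}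
    (hm : ∀ k ρ p q, p.le q → A k ρ p → A k ρ q) {p0 : Dt (List K ⊕ Λ) ℕ}
    (hA : ∀ k (f : ℕ → List K), (∀ n, Sc (f n) (f (n + 1))) → ∀ q, F.IsC q → p0.le q →
      ∃ r, F.IsC r ∧ q.le r ∧ ∃ n, A k (f n) r) :
    ∃ St : ℕ → (ℕ → List K) → Dt (List K ⊕ Λ) ℕ → Prop, (∀ d, St 0 d p0) ∧
      (∀ k d p p', St k d p → F.IsC p' → p.le p' →
        ∃ d' r, F.IsC r ∧ p'.le r ∧ St (k + 1) d' r ∧ ∀ i < k, d' i = d i) ∧
      ∀ k d p, St k d p → ∀ l < k, A l (d l) p ∧ ∀ l' < k, l ≠ l' → ∀ a < (d l).length,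
        (a ≤ (d l').length → ∃ i, en ((d l).take (a + 1)) i = (d l').take a) ∧
        (a < (d l').length → inl ((d l).take (a + 1)) ∈ p.u ∧ inl ((d l').take (a + 1)) ∈ p.u ∧
          (d l).length ≤ p.lab (inl ((d l).take (a + 1))) (inl ((d l').take (a + 1)))) := by
  obtain ⟨B, hc, ⟨S0, b0, b1⟩, hv, hB⟩ := exists_family ek hm hA
  let J := {j : ℕ × Sys K Λ × ℕ // j.2.1 ∈ B j.1}
  have : Countable J := ((countable_univ.prod ((countable_iUnion hc).prod countable_univ)).mono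
    (s₁ := {j : ℕ × Sys K Λ × ℕ | j.2.1 ∈ B j.1})
    fun j hj => mk_mem_prod (mem_univ _) (mk_mem_prod (mem_iUnion.2 ⟨j.1, hj⟩) (mem_univ _))).to_subtype
  obtain ⟨ρ, q, C, h1, h2, h3⟩ := exists_paths fun j : J => (hv _ _ j.2).1
  have h4 : ∀ j, ∀ a < (ρ j).length, inl ((ρ j).take (a + 1)) ∈ (q j).u := fun j => (h1 j).1.2.2.1
  have h5 : ∀ j, ∀ a < (ρ j).length, inl ((ρ j).take (a + 1)) ∉ C := fun j a ha =>
    (h3 j a ((h1 j).2.2 ▸ ha)).1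
  refine ⟨fun k d p => p0.le p ∧ ∃ js : ℕ → J, (∀ l < k, d l = ρ (js l) ∧ (js l).1.1 = l + 1 ∧
    (q (js l)).c.le p) ∧ (∃ S ∈ B k, S.w.c.le p ∧ ∀ l < k, (js l).1.2.1.Γ ⊆ S.Γ) ∧
    ∀ l < k, ∀ l' < k, l ≠ l' → ∀ a < (d l).length, a < (d l').length →
      (d l).length ≤ p.lab (inl ((d l).take (a + 1))) (inl ((d l').take (a + 1))),
    fun d => ⟨p0.le_refl, fun _ => ⟨(0, S0, 0), b0⟩, by simp, ⟨S0, b0, b1, by simp⟩, by simp⟩,
    ?_, ?_⟩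
  swap
  · rintro k d p ⟨-, js, g1, -, g2⟩ l hl
    refine ⟨hm _ _ _ _ (g1 l hl).2.2 ((g1 l hl).1 ▸ (h1 _).1.2.1 l (g1 l hl).2.1),
      fun l' hl' e a ha => ⟨fun h => ?_, fun h => ⟨?_, ?_, g2 l hl l' hl' e a ha h⟩⟩⟩ <;>
      simp only [(g1 l hl).1, (g1 l' hl').1] at ha h ⊢
    · exact (h3 _ a ((h1 _).2.2 ▸ ha)).2.1 _ ((h1 _).2.2 ▸ h)
    · exact (g1 l hl).2.2.1 (h4 _ a ha)
    · exact (g1 l' hl').2.2.1 (h4 _ a h)
  rintro k d p p' ⟨g0, js, g1, ⟨S, hS, g2, g3⟩, g4⟩ g5 g6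
  obtain ⟨S', hS', a1, p2, a2, a3, a4⟩ := hB k S hS p' g5 (g0.trans g6) (g2.trans g6)
  obtain ⟨i, hi⟩ : ∃ i, ∀ y ∈ p2.u, y ∈ (q ⟨(k + 1, S', i), hS'⟩).u → y ∈ C := by
    by_contra hn
    push Not at hn
    choose y y1 y2 y3 using hn
    obtain ⟨i, i', e1, e2⟩ := Finite.exists_ne_map_eq_of_infinite fun i => (⟨y i, y1 i⟩ : p2.u)
    exact y3 i (h2 _ _ (by simpa [J] using e1) _ (y2 i) (Subtype.mk.inj e2 ▸ y2 i'))
  set j : J := ⟨(k + 1, S', i), hS'⟩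
  have a5 : ∀ l < k, (q (js l)).c.le p2 := fun l hl => (g1 l hl).2.2.trans (g6.trans a3)
  let Sp : ℕ → List K → List K → Prop := fun l σ τ => ∃ a < (d l).length, a < (ρ j).length ∧
    σ = (d l).take (a + 1) ∧ τ = (ρ j).take (a + 1)
  obtain ⟨r, r1, r2, r3, r4⟩ := Frame.amalgamate a2 (h1 j).1.1 (Dt.agree_of a4 (c_le (h1 j).2.1.1)
    fun x e1 e2 => (h1 j).2.1.2 x e2 (hi x e1 e2))
    (fun σ τ => max ((Finset.range k).sup fun l => if Sp l σ τ then (d l).length else 0)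
      (if ∃ l < k, Sp l τ σ then (ρ j).length else 0)) fun σ τ ξ e1 e2 _ _ e3 e4 e5 _ => by
      have e6 := a2 ξ e3
      rw [Frame.good_iff] at e6
      replace e6 := e6.1 σ e1
      have e0 : ¬ ∃ l < k, Sp l τ σ := by
        rintro ⟨l, -, a, -, h, -, rfl⟩
        exact e2 (h4 j a h)
      rw [if_neg e0, max_eq_left (Nat.zero_le _), Finset.le_sup_iff (Nat.zero_lt_of_lt e6)] at e5
      obtain ⟨l, hl, e5⟩ := e5
      rw [Finset.mem_range] at hl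
      split_ifs at e5 with e7
      swap
      · omega
      obtain ⟨a, e7, e8, rfl, rfl⟩ := e7
      rw [(g1 l hl).1] at e5 e6 e7 ⊢
      rw [(h1 _).2.2] at e5 e7
      obtain ⟨b, hb⟩ := (h3 _ a e7).2.2 ξ (hi _ e3 e4) (by omega)
      have e9 := (hv _ _ (js l).2).2.2 _ e7 ξ b hb
      exact ⟨b, ((h1 _).1.2.2.2 _ e9).mono (a5 l hl), (h1 j).1.2.2.2 _ (a1 (g3 l hl e9))⟩
  have a6 : ∀ l < k, ∀ σ τ, Sp l σ τ → (d l).length ≤ r.lab (inl σ) (inl τ) ∧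
      (ρ j).length ≤ r.lab (inl τ) (inl σ) := fun l hl σ τ h => by
    have ⟨a, e1, e2, e3, e4⟩ := h
    have e5 : inl τ ∉ p2.u := fun h => h5 j a e2 (e4 ▸ hi _ h (e4 ▸ h4 j a e2))
    have e6 : inl σ ∉ (q j).c.u := fun h => by
      rw [(g1 l hl).1] at e1 e3
      refine h5 _ a e1 (h2 _ j (fun e => ?_) _ (h4 _ a e1) (e3 ▸ h))
      have := (g1 l hl).2.1
      rw [e] at this
      exact hl.ne' (Nat.succ_injective this)
    rw [r4 σ τ (fun h => e5 h.2) fun h => e6 h.1, r4 τ σ (fun h => e5 h.1) fun h => e6 h.2]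
    exact ⟨le_max_of_le_left ((if_pos h).symm.trans_le (Finset.le_sup
      (f := fun l => if Sp l σ τ then (d l).length else 0) (Finset.mem_range.2 hl))),
      le_max_of_le_right (if_pos ⟨l, hl, h⟩).ge⟩
  have a7 := g6.trans (a3.trans r2)
  refine ⟨update d k (ρ j), r, r1, a3.trans r2, ⟨g0.trans a7, update js k j,
    fun l hl => ?_, ⟨S', hS', a4.trans r2, fun l hl => ?_⟩, fun l hl l' hl' e => ?_⟩,
    fun i hi => update_of_ne hi.ne _ _⟩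
  · rcases Nat.lt_succ_iff_lt_or_eq.1 hl with h | rfl
    · simp only [update_of_ne h.ne]
      exact ⟨(g1 l h).1, (g1 l h).2.1, (a5 l h).trans r2⟩
    · simp only [update_self]
      exact ⟨trivial, rfl, r3⟩
  · rcases Nat.lt_succ_iff_lt_or_eq.1 hl with h | rfl
    · simp only [update_of_ne h.ne]
      exact (g3 l h).trans a1
    · simp only [update_self]
      exact subset_rfl
  rcases Nat.lt_succ_iff_lt_or_eq.1 hl with h | rfl <;>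
    rcases Nat.lt_succ_iff_lt_or_eq.1 hl' with h' | rfl
  · simp only [update_of_ne h.ne, update_of_ne h'.ne]
    intro a e1 e2
    have e3 := g4 l h l' h' e a e1 e2
    rw [(g1 l h).1] at e1 e3 ⊢
    rw [(g1 l' h').1] at e2 e3 ⊢
    rwa [a7.2 _ ((g1 l h).2.2.1 (h4 _ a e1)) _ ((g1 l' h').2.2.1 (h4 _ a e2))]
  · simp only [update_of_ne h.ne, update_self]
    exact fun a e1 e2 => (a6 l h _ _ ⟨a, e1, e2, rfl, rfl⟩).1
  · simp only [update_of_ne h'.ne, update_self]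
    exact fun a e1 e2 => (a6 l' h' _ _ ⟨a, e2, e1, rfl, rfl⟩).2
  · exact absurd rfl e

end Pool.Agent.MP_57347c_gt.H92

end MrgPart4

-- ======== part 5: formerly Pool.Agent.MP_57347c_gt.h92.Trans
section MrgPart5

/-! Translation from typed spaces to coded spaces. -/

namespace Pool.Agent.MP_57347c_gt.H92

open Pool.Agent.ZF92 Function ZFSet
open scoped Classical

set_option linter.unusedSectionVars false

universe u v

variable {M : Set ZFSet.{0}} [hM : Fact (ZFC M)]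
variable {X : Type u} {Y : Type v} [Srt M X] [Sm M X] [Srt M Y] [Sm M Y]

theorem cd_mem_un (x : X) : cd M x ∈ un M X := mem_un.2 ⟨x, rfl⟩

theorem forall_un {P : ZFSet → Prop} : (∀ z ∈ un M X, P z) ↔ ∀ x : X, P (cd M x) :=
  ⟨fun h x => h _ (cd_mem_un x), fun h z hz => by obtain ⟨x, rfl⟩ := mem_un.1 hz; exact h x⟩

theorem forall_cd {A : PS M X} {P : ZFSet → Prop} : (∀ z ∈ cd M A, P z) ↔ ∀ x ∈ A, P (cd M x) :=
  ⟨fun h x hx => h _ (cd_mem_cd_ps.2 hx), fun h z hz => by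
    obtain ⟨x, hx, rfl⟩ := mem_cd_ps.1 hz; exact h x hx⟩

theorem exists_cd {A : PS M X} {P : ZFSet → Prop} : (∃ z ∈ cd M A, P z) ↔ ∃ x ∈ A, P (cd M x) :=
  ⟨fun ⟨z, hz, h⟩ => by obtain ⟨x, hx, rfl⟩ := mem_cd_ps.1 hz; exact ⟨x, hx, h⟩,
    fun ⟨x, hx, h⟩ => ⟨_, cd_mem_cd_ps.2 hx, h⟩⟩

theorem cd_sub_cd {A B : PS M X} : cd M A ⊆ cd M B ↔ ∀ x ∈ A, x ∈ B :=
  (forall_cd (P := (· ∈ cd M B))).trans (by simp only [cd_mem_cd_ps])

theorem inter_ne_empty {A B : PS M X} : cd M A ∩ cd M B ≠ ∅ ↔ ∃ y, y ∈ A ∧ y ∈ B := by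
  rw [Ne, eq_empty]
  push Not
  simp only [mem_inter]
  exact exists_cd.trans (by simp only [cd_mem_cd_ps])

theorem countableIn_iff {A : ZFSet} {P : Y → Prop} (dP : DfF M P)
    (h : ∀ z, z ∈ A ↔ ∃ y, P y ∧ z = cd M y) : CountableIn M A ↔ Ctb M P := by
  constructor
  · rintro ⟨f, hf, h1, h2⟩
    obtain ⟨c, dc, hc⟩ := exists_choice' (M := M) (R := fun (y : Y) (n : ℕ) => cd M (y, n) ∈ f)
      (DfF.cd_mem_set DfF.id hf)
    have key : ∀ y, P y → pair (cd M y) (nat (c y)) ∈ f := fun y hy => by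
      obtain ⟨w, h3, -⟩ := h1.2 _ ((h _).2 ⟨y, hy, rfl⟩)
      obtain ⟨n, rfl⟩ := mem_omega.1 (pair_mem_prod.1 (h1.1 h3)).2
      exact hc y n h3
    exact ⟨⟨c, dc⟩, fun x y hx hy e => cd_inj.1 (h2 _ _ _ (key x hx)
      ((show c x = c y from e) ▸ key y hy))⟩
  · rintro ⟨c, hc⟩
    have e : ∀ z, z ∈ cd M (PS.of M fun p : Y × ℕ => P p.1 ∧ c.ap p.1 = p.2) ↔
        ∃ y, P y ∧ z = pair (cd M y) (nat (c.ap y)) := fun z => by
      rw [mem_cd_ps]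
      constructor
      · rintro ⟨p, h1, rfl⟩
        rw [PS.mem_of (by fun_prop)] at h1
        exact ⟨p.1, h1.1, h1.2 ▸ rfl⟩
      · rintro ⟨y, h1, rfl⟩
        exact ⟨(y, c.ap y), (PS.mem_of (by fun_prop)).2 ⟨h1, rfl⟩, rfl⟩
    refine ⟨_, cd_mem (PS.of M fun p : Y × ℕ => P p.1 ∧ c.ap p.1 = p.2),
      ⟨fun z hz => ?_, fun z hz => ?_⟩, fun x y z h1 h2 => ?_⟩
    · obtain ⟨y, h1, rfl⟩ := (e z).1 hz
      exact pair_mem_prod.2 ⟨(h _).2 ⟨y, h1, rfl⟩, mem_omega.2 ⟨_, rfl⟩⟩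
    · obtain ⟨y, h1, rfl⟩ := (h z).1 hz
      refine ⟨_, (e _).2 ⟨y, h1, rfl⟩, fun w hw => ?_⟩
      obtain ⟨y', -, h2⟩ := (e _).1 hw
      rw [pair_inj, cd_inj] at h2
      rw [h2.1, h2.2]
    · obtain ⟨x', h3, h4⟩ := (e _).1 h1
      obtain ⟨y', h5, h6⟩ := (e _).1 h2
      rw [pair_inj] at h4 h6
      rw [h4.1, h6.1, hc x' y' h3 h5 (nat_inj (h4.2.symm.trans h6.2))]

theorem exists_seq {s : ZFSet} (hs : s ∈ M) {b : ℕ → ZFSet} (h : SeqOf s b)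
    (hb : ∀ n, ∃ y : Y, b n = cd M y) : ∃ F : Fn M ℕ Y, b = fun n => cd M (F.ap n) := by
  obtain ⟨c, dc, hc⟩ := exists_choice (M := M) (R := fun (n : ℕ) (y : Y) => cd M (n, y) ∈ s)
    (DfF.cd_mem_set DfF.id hs) fun n => let ⟨y, hy⟩ := hb n; ⟨y, (h _).2 ⟨n, hy ▸ rfl⟩⟩
  refine ⟨⟨c, dc⟩, funext fun n => ?_⟩
  obtain ⟨m, hm⟩ := (h _).1 (hc n)
  rw [cd_prod, pair_inj] at hm
  obtain rfl : n = m := nat_inj hm.1
  exact hm.2.symm

def LC (Op : PS M X → Prop) (D : PS M (PS M X)) : Prop :=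
  ∀ x, ∃ W, Op W ∧ x ∈ W ∧ Ctb M fun U => U ∈ D ∧ ∃ y, y ∈ U ∧ y ∈ W

structure Typed (Op : PS M X → Prop) : Prop where
  df : DfF M Op
  whole : ∀ A : PS M X, (∀ x, x ∈ A) → Op A
  inter : ∀ A B C : PS M X, Op A → Op B → (∀ x, x ∈ C ↔ x ∈ A ∧ x ∈ B) → Op C
  loc : ∀ C : PS M X, (∀ x ∈ C, ∃ A, Op A ∧ x ∈ A ∧ ∀ y ∈ A, y ∈ C) → Op C
  t1 : ∀ x y : X, x ≠ y → ∃ U, Op U ∧ x ∈ U ∧ y ∉ U
  reg : ∀ U, Op U → ∀ x ∈ U, ∃ V W, Op V ∧ Op W ∧ x ∈ V ∧ (∀ y ∈ V, y ∉ W) ∧ ∀ y, y ∉ U → y ∈ W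
  nor : ∀ U V, Op U → Op V → (∀ x, x ∈ U ∨ x ∈ V) → ∃ U' V', Op U' ∧ Op V' ∧ (∀ y ∈ U', y ∉ V') ∧
    (∀ y, y ∉ U → y ∈ U') ∧ ∀ y, y ∉ V → y ∈ V'
  pl : ∀ C : PS M (PS M X), (∀ U ∈ C, Op U) → (∀ x, ∃ U ∈ C, x ∈ U) → ∃ D : PS M (PS M X),
    (∀ V ∈ D, Op V) ∧ (∀ x, ∃ V ∈ D, x ∈ V) ∧ (∀ V ∈ D, ∃ U ∈ C, ∀ x ∈ V, x ∈ U) ∧ LC Op D
  bco : ∃ B : PS M (PS M X), (∀ V ∈ B, Op V) ∧
    (∀ U, Op U → ∀ x ∈ U, ∃ V ∈ B, x ∈ V ∧ ∀ y ∈ V, y ∈ U) ∧ ∀ x (b : Fn M ℕ (PS M X)),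
      (∀ n, b.ap n ∈ B) → (∀ n, x ∈ b.ap n) →
      (∀ n, (∀ y ∈ b.ap (n + 1), y ∈ b.ap n) ∧ b.ap (n + 1) ≠ b.ap n) →
      ∀ U, Op U → x ∈ U → ∃ n, ∀ y ∈ b.ap n, y ∈ U
  nos : ∀ b : Fn M ℕ (PS M (PS M X)),
    (∀ U, Op U → ∀ x ∈ U, ∃ n, ∃ V ∈ b.ap n, x ∈ V ∧ ∀ y ∈ V, y ∈ U) → ¬ ∀ n, LC Op (b.ap n)

theorem Typed.coded {Op : PS M X → Prop} (h : Typed Op) : ∃ T ∈ M, RegularSp M (un M X) T ∧
    IsNormal (un M X) T ∧ ParaLindelof M (un M X) T ∧ HasBCO M (un M X) T ∧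
      ¬ HasSigmaLocCountableBase M (un M X) T := by
  have hO : ∀ A, A ∈ PS.of M Op ↔ Op A := fun A => PS.mem_of h.df
  set O := PS.of M Op
  have fam : ∀ C ∈ M, C ⊆ cd M O → ∃ C' : PS M (PS M X), cd M C' = C := fun C h1 h2 =>
    exists_ps h1 fun z hz => (mem_cd_ps.1 (h2 hz)).imp fun _ => And.right
  have op : ∀ (a : ZFSet) (P : X → Prop), DfF M P → (∀ z ∈ a, ∃ x : X, z = cd M x) →
      (∀ x, cd M x ∈ a ↔ P x) → (∀ A : PS M X, (∀ x, x ∈ A ↔ P x) → Op A) → a ∈ cd M O :=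
    fun a P dP h1 h2 h3 => mem_cd_ps.2 ⟨PS.of M P, (hO _).2 (h3 _ fun x => PS.mem_of dP), by
      ext z
      rw [mem_cd_ps]
      constructor
      · intro hz
        obtain ⟨x, rfl⟩ := h1 z hz
        exact ⟨x, (PS.mem_of dP).2 ((h2 x).1 hz), rfl⟩
      · rintro ⟨x, hx, rfl⟩
        exact (h2 x).2 ((PS.mem_of dP).1 hx)⟩
  have cov : ∀ C : PS M (PS M X), un M X ⊆ ZFSet.sUnion (cd M C) ↔ ∀ x, ∃ U ∈ C, x ∈ U :=
    fun C => (forall_un (P := (· ∈ ZFSet.sUnion (cd M C)))).trans (by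
      simp only [mem_sUnion, exists_cd, cd_mem_cd_ps])
  have lc : ∀ D : PS M (PS M X), LocCountable M (un M X) (cd M O) (cd M D) ↔ LC Op D := fun D => by
    simp only [LocCountable, LC, forall_un, exists_cd, cd_mem_cd_ps, hO]
    refine forall_congr' fun x => exists_congr fun W => and_congr_right' (and_congr_right' ?_)
    refine countableIn_iff (by fun_prop) fun z => ?_
    rw [mem_sep, mem_cd_ps]
    exact ⟨fun ⟨⟨U, h1, h2⟩, h3⟩ => ⟨U, ⟨h1, inter_ne_empty.1 (h2 ▸ h3)⟩, h2⟩,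
      fun ⟨U, ⟨h1, h3⟩, h2⟩ => ⟨⟨U, h1, h2⟩, h2 ▸ inter_ne_empty.2 h3⟩⟩
  refine ⟨cd M O, cd_mem _, ⟨forall_cd.2 fun A _ => (forall_cd (P := (· ∈ un M X))).2
    fun x _ => cd_mem_un x, op _ (fun _ => True) (by fun_prop) (fun z => mem_un.1)
      (fun x => iff_true_intro (cd_mem_un x)) fun A hA => h.whole A fun x => (hA x).2 trivial,
    forall_cd.2 fun A hA => forall_cd.2 fun B hB => op _ (fun x => x ∈ A ∧ x ∈ B) (by fun_prop)
      (fun z hz => (mem_cd_ps.1 (mem_inter.1 hz).1).imp fun _ => And.right)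
      (fun x => by simp only [mem_inter, cd_mem_cd_ps])
      fun C => h.inter A B C ((hO _).1 hA) ((hO _).1 hB), fun C h1 h2 => ?_, ?_, ?_⟩, ?_,
    fun C h1 h2 h3 => ?_, ?_, ?_⟩
  · obtain ⟨C, rfl⟩ := fam C h1 h2
    refine op _ (fun x => ∃ U, U ∈ C ∧ x ∈ U) (by fun_prop) (fun z hz => ?_)
      (fun x => by simp only [mem_sUnion, exists_cd, cd_mem_cd_ps]) fun A hA => h.loc A fun x hx => ?_
    · obtain ⟨U, -, h3⟩ := exists_cd.1 (mem_sUnion.1 hz)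
      exact (mem_cd_ps.1 h3).imp fun _ => And.right
    · obtain ⟨U, h3, h4⟩ := (hA x).1 hx
      exact ⟨U, (hO _).1 (cd_sub_cd.1 h2 U h3), h4, fun y hy => (hA y).2 ⟨U, h3, hy⟩⟩
  · simpa only [forall_un, exists_cd, cd_mem_cd_ps, hO, Ne, cd_inj] using h.t1
  · simp only [forall_un, forall_cd, exists_cd, cd_mem_cd_ps, hO]
    intro U hU x hx
    obtain ⟨V, W, h1, h2, h3, h4, h5⟩ := h.reg U hU x hx
    exact ⟨V, h1, W, h2, h3, not_not.1 fun e => let ⟨y, a, b⟩ := inter_ne_empty.1 e; h4 y a b, h5⟩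
  · simp only [IsNormal, forall_un, forall_cd, exists_cd, cd_mem_cd_ps, hO]
    intro U hU V hV h0
    obtain ⟨U', V', h1, h2, h3, h4⟩ := h.nor U V hU hV fun x => by
      simpa only [mem_union, cd_mem_cd_ps] using h0 (cd_mem_un x)
    exact ⟨U', h1, V', h2, not_not.1 fun e => let ⟨y, a, b⟩ := inter_ne_empty.1 e; h3 y a b, h4⟩
  · obtain ⟨C, rfl⟩ := fam C h1 h2
    obtain ⟨D, h4, h5, h6, h7⟩ := h.pl C (fun U hU => (hO _).1 (cd_sub_cd.1 h2 U hU)) ((cov C).1 h3)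
    exact ⟨_, cd_mem D, cd_sub_cd.2 fun V hV => (hO _).2 (h4 V hV), (cov D).2 h5,
      by simpa only [forall_cd, exists_cd, cd_sub_cd] using h6, (lc D).2 h7⟩
  · obtain ⟨B, h1, h2, h3⟩ := h.bco
    refine ⟨_, cd_mem B, ⟨cd_sub_cd.2 fun V hV => (hO _).2 (h1 V hV),
      by simpa only [forall_cd, exists_cd, cd_sub_cd, cd_mem_cd_ps, hO] using h2⟩,
      forall_un.2 fun x s hs b h4 h5 => ?_⟩
    obtain ⟨b, rfl⟩ := exists_seq (Y := PS M X) hs h4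
      fun n => (mem_cd_ps.1 (h5 n)).imp fun _ => And.right
    simpa only [forall_cd, cd_sub_cd, cd_mem_cd_ps, hO, Ne, cd_inj] using
      h3 x b fun n => cd_mem_cd_ps.1 (h5 n)
  · rintro ⟨B, -, h1, s, hs, b, h2, h3, h4⟩
    obtain ⟨b, rfl⟩ := exists_seq (Y := PS M (PS M X)) hs h2 fun n => (fam _ (pair_mem_iff.1
      (trM hs ((h2 _).2 ⟨n, rfl⟩))).2 fun U hU => h1.1 ((h3 U).2 ⟨n, hU⟩)).imp fun _ => Eq.symm
    refine h.nos b (fun U hU x hx => ?_) fun n => (lc _).1 (h4 n)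
    obtain ⟨V, h5, h6⟩ := h1.2 _ (cd_mem_cd_ps.2 ((hO U).2 hU)) _ (cd_mem_cd_ps.2 hx)
    obtain ⟨n, hn⟩ := (h3 V).1 h5
    obtain ⟨V, h7, rfl⟩ := mem_cd_ps.1 hn
    exact ⟨n, V, h7, cd_mem_cd_ps.1 h6.1, cd_sub_cd.1 h6.2⟩

end Pool.Agent.MP_57347c_gt.H92

end MrgPart5

-- ======== part 6: formerly Pool.Agent.MP_57347c_gt.h92.Space
section MrgPart6

/-! The space of branches and cliques inside a model. -/

namespace Pool.Agent.MP_57347c_gt.H92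

open Pool.Agent.ZF92 Function
open scoped Classical

set_option linter.unusedSectionVars false

/-- A tree with a capturing function and a matrix of separation numbers. -/
structure Nv (M : Set ZFSet.{0}) [Fact (ZFC M)] (T : Type) [Srt M T] where
  len : T → ℕ
  res : T → ℕ → T
  en : T → ℕ → T
  c : T → T → ℕ
  dlen : DfF M len
  dres : DfF M fun p : T × ℕ => res p.1 p.2
  den : DfF M fun p : T × ℕ => en p.1 p.2
  dc : DfF M fun p : T × T => c p.1 p.2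
  len_res : ∀ x a, len (res x a) = min a (len x)
  res_res : ∀ x a b, res (res x a) b = res x (min b a)
  res_len : ∀ x, res x (len x) = x
  succ : ∀ x, ∃ y, len y = len x + 1 ∧ res y (len x) = x

variable {M : Set ZFSet.{0}} [hM : Fact (ZFC M)] {T : Type} [Srt M T] [Sm M T] (N : Nv M T)

namespace Nv

section
variable {Z : Type*} [Srt M Z]

@[fun_prop] theorem df_len {f : Z → T} (hf : DfF M f) : DfF M fun z => N.len (f z) :=
  N.dlen.comp hf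

@[fun_prop] theorem df_res {f : Z → T} {g : Z → ℕ} (hf : DfF M f) (hg : DfF M g) :
    DfF M fun z => N.res (f z) (g z) := N.dres.comp (hf.mk hg)

@[fun_prop] theorem df_en {f : Z → T} {g : Z → ℕ} (hf : DfF M f) (hg : DfF M g) :
    DfF M fun z => N.en (f z) (g z) := N.den.comp (hf.mk hg)

@[fun_prop] theorem df_c {f g : Z → T} (hf : DfF M f) (hg : DfF M g) :
    DfF M fun z => N.c (f z) (g z) := N.dc.comp (hf.mk hg)

end

def Br (f : ℕ → T) : Prop := ∀ n, N.len (f n) = n ∧ N.res (f (n + 1)) n = f n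

def PP (σ τ : T) : Prop := ∀ a < N.len σ,
  (a ≤ N.len τ → ∃ i, N.en (N.res σ (a + 1)) i = N.res τ a) ∧
  (a < N.len τ → N.len σ ≤ N.c (N.res σ (a + 1)) (N.res τ (a + 1)))

def Cl (d : ℕ → T) : Prop := ∀ k l, k ≠ l → N.PP (d k) (d l)

structure Ok : Prop where
  sep : ∀ Z : PS M T, ∃ n : Fn M T ℕ, ∀ σ ∈ Z, ∀ τ, τ ∉ Z → N.c σ τ < n.ap σ ∨ N.c τ σ < n.ap τ
  clique : ∀ A : PS M (ℕ × T), (∀ k (f : Fn M ℕ T), N.Br f.ap → ∃ n, (k, f.ap n) ∈ A) →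
    ∃ d : Fn M ℕ T, N.Cl d.ap ∧ ∀ k, ∃ a, (k, N.res (d.ap k) a) ∈ A

/-- Points. -/
def Pt := {x : Fn M ℕ T × Option (Fn M ℕ ℕ) // (x.2 = none → N.Br x.1.ap) ∧ (x.2 ≠ none → N.Cl x.1.ap)}

noncomputable instance : Srt M N.Pt := Srt.sub _ (by
  simp only [Br, Cl, PP, all_iff, imp_iff]; fun_prop)

instance : Sm M N.Pt := sm_of_subset (un_mem (X := Fn M ℕ T × Option (Fn M ℕ ℕ)))
  fun x => mem_un.2 ⟨x.1, rfl⟩

variable {N}

def Pt.f (x : N.Pt) (n : ℕ) : T := x.1.1.ap n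
def Pt.o (x : N.Pt) : Option (Fn M ℕ ℕ) := x.1.2

theorem df_val : DfF M fun x : N.Pt => x.1 := DfF.of_cd_eq fun _ => rfl

@[fun_prop] theorem df_f {Z : Type*} [Srt M Z] {f : Z → N.Pt} {g : Z → ℕ} (hf : DfF M f)
    (hg : DfF M g) : DfF M fun z => (f z).f (g z) := (df_val.comp hf).fst.ap hg

@[fun_prop] theorem df_o {Z : Type*} [Srt M Z] {f : Z → N.Pt} (hf : DfF M f) :
    DfF M fun z => (f z).o := (df_val.comp hf).snd

def Le (N : Nv M T) (σ τ : T) : Prop := N.res τ (N.len σ) = σ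

theorem Le.len {σ τ : T} (h : N.Le σ τ) : N.len σ ≤ N.len τ := by
  have := N.len_res τ (N.len σ)
  rw [h] at this; omega

theorem Le.res {σ τ : T} (h : N.Le σ τ) {a : ℕ} (ha : a ≤ N.len σ) : N.res σ a = N.res τ a := by
  rw [← h, N.res_res, min_eq_left ha]

theorem Le.trans {σ τ ρ : T} (h : N.Le σ τ) (h' : N.Le τ ρ) : N.Le σ ρ :=
  (h'.res h.len).symm.trans h

theorem res_le (τ : T) (a : ℕ) : N.Le (N.res τ a) τ := by
  rw [Le, N.len_res, ← N.res_res, N.res_len]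

theorem Br.le {f : ℕ → T} (h : N.Br f) {m n : ℕ} (e : m ≤ n) : N.Le (f m) (f n) := by
  induction e with
  | refl => exact N.res_len _
  | step _ ih => exact ih.trans (by rw [Le, (h _).1]; exact (h _).2)

theorem Br.res {f : ℕ → T} (h : N.Br f) {m n : ℕ} (e : m ≤ n) : N.res (f n) m = f m := by
  have := h.le e
  rwa [Le, (h m).1] at this

def In (σ : T) (z : N.Pt) : Prop := ∃ k, N.Le σ (z.f k)

@[fun_prop] theorem df_in {Z : Type*} [Srt M Z] {f : Z → T} {g : Z → N.Pt} (hf : DfF M f)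
    (hg : DfF M g) : DfF M fun z => In (f z) (g z) := by
  simp only [In, Le]; fun_prop

theorem In.mono {σ τ : T} {z : N.Pt} (h : N.Le σ τ) (h' : In τ z) : In σ z :=
  h'.imp fun _ => h.trans

theorem Pt.br {x : N.Pt} (h : x.o = none) : N.Br x.f := x.2.1 h

theorem Pt.cl {x : N.Pt} (h : x.o ≠ none) : N.Cl x.f := x.2.2 h

theorem in_self (x : N.Pt) (n : ℕ) : In (x.f n) x := ⟨n, N.res_len _⟩

theorem In.br {σ : T} {x : N.Pt} (h : x.o = none) (h' : In σ x) : x.f (N.len σ) = σ :=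
  let ⟨k, hk⟩ := h'; ((Pt.br h).res (hk.len.trans (Pt.br h k).1.le)).symm.trans hk

theorem In.cases {σ τ : T} {z : N.Pt} (h : In σ z) (h' : In τ z) :
    (∀ b, b ≤ N.len σ → b ≤ N.len τ → N.res σ b = N.res τ b) ∨ (N.PP σ τ ∧ N.PP τ σ) := by
  have key : ∀ {σ τ ρ ρ' : T}, N.Le σ ρ → N.Le τ ρ' → N.PP ρ ρ' → N.PP σ τ :=
    fun h h' H a ha => ⟨fun e => by
      rw [h.res ha, h'.res e]; exact (H a (ha.trans_le h.len)).1 (e.trans h'.len), fun e => by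
      rw [h.res ha, h'.res e]; exact h.len.trans ((H a (ha.trans_le h.len)).2 (e.trans_le h'.len))⟩
  obtain ⟨k, hk⟩ := h
  obtain ⟨l, hl⟩ := h'
  by_cases e : z.o = none
  · refine Or.inl fun b h1 h2 => ?_
    rw [hk.res h1, hl.res h2, (Pt.br e).res (h1.trans (hk.len.trans (Pt.br e k).1.le)),
      (Pt.br e).res (h2.trans (hl.len.trans (Pt.br e l).1.le))]
  by_cases e' : k = l
  · exact Or.inl fun b h1 h2 => by rw [hk.res h1, hl.res h2, e']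
  exact Or.inr ⟨key hk hl (Pt.cl e k l e'), key hl hk (Pt.cl e l k (Ne.symm e'))⟩

theorem exists_not_in {x y : N.Pt} (h : x.o = none) (e : x ≠ y) : ∃ n, ¬ In (x.f n) y := by
  by_contra hn
  push Not at hn
  by_cases h' : y.o = none
  · refine e (Subtype.ext (Prod.ext (Fn.ext fun n => ?_) (h.trans h'.symm)))
    have := (hn n).br h'
    rw [(Pt.br h n).1] at this
    exact this.symm
  obtain ⟨l, hl⟩ := hn 1
  obtain ⟨k, hk⟩ := hn (N.len (y.f l) + N.c (x.f 1) (x.f 1) + 1)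
  have h1 := hl.len
  have h2 := hk.len
  rw [(Pt.br h _).1] at h1 h2
  have h3 := (Pt.cl h' k l (fun e => by subst e; omega) 0 (by omega)).2 h1
  have h4 := ((Pt.br h).le (Nat.le_add_left 1 _)).trans hk
  rw [Le, (Pt.br h _).1] at hl h4
  rw [zero_add, hl, h4] at h3
  omega

theorem exists_branch (σ : T) : ∃ x : N.Pt, x.o = none ∧ In σ x := by
  obtain ⟨s, ds, hs⟩ := exists_choice (M := M)
    (R := fun x y => N.len y = N.len x + 1 ∧ N.res y (N.len x) = x) (by fun_prop) N.succ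
  have d1 := ds.iterate σ
  have h1 : ∀ n, N.len (s^[n] σ) = N.len σ + n ∧ N.Le σ (s^[n] σ) := fun n => by
    induction n with
    | zero => exact ⟨rfl, N.res_len _⟩
    | succ n ih =>
      rw [iterate_succ_apply']
      exact ⟨by rw [(hs _).1, ih.1, add_assoc], ih.2.trans (hs _).2⟩
  refine ⟨⟨(⟨fun n => N.res (s^[n] σ) n, N.df_res d1 DfF.id⟩, none), fun _ n => ?_,
    fun h => absurd rfl h⟩, rfl, N.len σ, ?_⟩
  · simp only [Fn.ap_mk, N.len_res, N.res_res, (h1 n).1, iterate_succ_apply']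
    exact ⟨by omega, by
      rw [min_eq_left n.le_succ]
      exact (Le.res (σ := s^[n] σ) (hs _).2 (by rw [(h1 n).1]; omega)).symm⟩
  · exact (N.res_res _ _ _).trans (by rw [min_self]; exact (h1 _).2)

def Op (U : PS M N.Pt) : Prop := ∀ x ∈ U, x.o = none → ∃ n, ∀ z, In (x.f n) z → z ∈ U

noncomputable def B (σ : T) : PS M N.Pt := PS.of M (In σ)

noncomputable def S (x : N.Pt) : PS M N.Pt := PS.of M (· = x)

@[simp] theorem mem_B {σ : T} {z : N.Pt} : z ∈ B σ ↔ In σ z := PS.mem_of (by fun_prop)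

@[simp] theorem mem_S {x z : N.Pt} : z ∈ S x ↔ z = x := PS.mem_of (by fun_prop)

@[fun_prop] theorem df_B {Z : Type*} [Srt M Z] {f : Z → T} (hf : DfF M f) :
    DfF M fun z => B (N := N) (f z) := DfF.psOf (P := fun z => In (f z)) (by fun_prop)

@[fun_prop] theorem df_S {Z : Type*} [Srt M Z] {f : Z → N.Pt} (hf : DfF M f) :
    DfF M fun z => S (f z) := DfF.psOf (P := fun z y => y = f z) (by fun_prop)

theorem op_of {U : PS M N.Pt} (h : ∀ x ∈ U, x.o = none → ∃ τ, In τ x ∧ ∀ z, In τ z → z ∈ U) :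
    Op U := fun x h1 h2 => let ⟨τ, h3, h4⟩ := h x h1 h2; ⟨N.len τ, by rwa [h3.br h2]⟩

theorem op_B (σ : T) : Op (B (N := N) σ) :=
  op_of fun _ h _ => ⟨σ, mem_B.1 h, fun _ => mem_B.2⟩

theorem op_S {x : N.Pt} (h : x.o ≠ none) : Op (S x) := fun _ h1 h2 => absurd (mem_S.1 h1 ▸ h2) h

theorem reg (U : PS M N.Pt) (hU : Op U) (x : N.Pt) (hx : x ∈ U) :
    ∃ V W, Op V ∧ Op W ∧ x ∈ V ∧ (∀ y ∈ V, y ∉ W) ∧ ∀ y, y ∉ U → y ∈ W := by
  suffices ∃ V, Op V ∧ x ∈ V ∧ (∀ y ∈ V, y ∈ U) ∧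
      ∀ y : N.Pt, y ∉ V → y.o = none → ∃ n, ∀ z, In (y.f n) z → z ∉ V by
    obtain ⟨V, h1, h2, h3, h4⟩ := this
    have e : ∀ y, y ∈ PS.of M (· ∉ V) ↔ y ∉ V := fun y => PS.mem_of (by fun_prop)
    exact ⟨V, PS.of M (· ∉ V), h1, by simpa only [Op, e] using h4, h2, by simp [e],
      fun y h => (e y).2 fun h' => h (h3 y h')⟩
  by_cases h : x.o = none
  swap
  · refine ⟨S x, op_S h, mem_S.2 rfl, fun y hy => mem_S.1 hy ▸ hx, fun y h1 h2 => ?_⟩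
    exact (exists_not_in h2 (mt mem_S.2 h1)).imp fun n h3 z h4 h5 => h3 (mem_S.1 h5 ▸ h4)
  obtain ⟨n, hn⟩ := hU x hx h
  refine ⟨B (x.f (n + 1)), op_B _, mem_B.2 (in_self _ _), fun y hy =>
    hn y ((mem_B.1 hy).mono ((Pt.br h).le n.le_succ)), fun y h1 h2 =>
    ⟨n + 1 + N.c (y.f (n + 1)) (x.f (n + 1)) + 1, fun z h3 h4 => ?_⟩⟩
  rcases h3.cases (mem_B.1 h4) with h5 | ⟨h5, -⟩
  · have := h5 (n + 1) (by rw [(Pt.br h2 _).1]; omega) (Pt.br h _).1.ge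
    rw [(Pt.br h2).res (by omega), (Pt.br h).res le_rfl] at this
    exact h1 (mem_B.2 (this ▸ in_self _ _))
  · have := (h5 n (by rw [(Pt.br h2 _).1]; omega)).2 (Pt.br h _).1.ge
    rw [(Pt.br h2).res (by omega), (Pt.br h).res le_rfl, (Pt.br h2 _).1] at this
    omega

theorem pl (hN : N.Ok) (C : PS M (PS M N.Pt)) (hC : ∀ U ∈ C, Op U) (hC' : ∀ x, ∃ U ∈ C, x ∈ U) :
    ∃ D : PS M (PS M N.Pt), (∀ V ∈ D, Op V) ∧ (∀ x, ∃ V ∈ D, x ∈ V) ∧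
      (∀ V ∈ D, ∃ U ∈ C, ∀ x ∈ V, x ∈ U) ∧ LC Op D := by
  let Z : T → Prop := fun σ => ∃ U, U ∈ C ∧ ∀ z, In σ z → z ∈ U
  have dZ : DfF M Z := by simp only [Z, all_iff, imp_iff]; fun_prop
  obtain ⟨n, hn⟩ := hN.sep (PS.of M Z)
  simp only [PS.mem_of dZ] at hn
  let A : T → Prop := fun σ => Z σ ∧ 0 < N.len σ ∧ ∀ b, 0 < b → b < N.len σ → ¬ Z (N.res σ b)
  have dA : DfF M A := by simp only [A, all_iff, imp_iff]; fun_prop
  let L : T → T → Prop := fun σ τ => N.Le σ τ ∧ N.len σ < N.len τ ∧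
    ∀ b, b ≤ N.len σ → n.ap (N.res σ b) ≤ N.len τ
  have dL : DfF M fun p : T × T => L p.1 p.2 := by simp only [L, Le, all_iff, imp_iff]; fun_prop
  let V : T → PS M N.Pt := fun σ => PS.of M fun z => ∃ τ, L σ τ ∧ In τ z
  have dV : DfF M V := by fun_prop
  have hV : ∀ σ z, z ∈ V σ ↔ ∃ τ, L σ τ ∧ In τ z := fun σ z => PS.mem_of (by fun_prop)
  let D : PS M N.Pt → Prop := fun U => (∃ σ, A σ ∧ U = V σ) ∨
    ∃ z, z.o ≠ none ∧ (¬ ∃ σ, A σ ∧ z ∈ V σ) ∧ U = S z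
  have dD : DfF M D := by fun_prop
  have h1 : ∀ x : N.Pt, x.o = none → ∃ a m, A (x.f a) ∧ L (x.f a) (x.f m) := fun x hx => by
    have h1 : ∃ a, 0 < a ∧ Z (x.f a) := by
      obtain ⟨U, h1, h2⟩ := hC' x
      obtain ⟨k, hk⟩ := hC U h1 x h2 hx
      exact ⟨k + 1, k.succ_pos, U, h1, fun z hz => hk z (hz.mono ((Pt.br hx).le k.le_succ))⟩
    have h2 := Nat.find_spec h1
    obtain ⟨m, hm⟩ := ((Set.finite_Iic (Nat.find h1)).image
      fun b => n.ap (N.res (x.f (Nat.find h1)) b)).bddAbove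
    refine ⟨Nat.find h1, Nat.find h1 + m + 1, ⟨h2.2, ?_⟩, (Pt.br hx).le (by omega), ?_⟩ <;>
      simp only [(Pt.br hx _).1]
    · exact ⟨h2.1, fun b g1 g2 g3 => Nat.find_min h1 g2 ⟨g1, by rwa [(Pt.br hx).res g2.le] at g3⟩⟩
    · exact ⟨by omega, fun b hb => (hm ⟨b, hb, rfl⟩).trans (by omega)⟩
  have h2 : ∀ σ σ' τ τ' (y : N.Pt), A σ → A σ' → L σ τ → L σ' τ' → In τ y → In τ' y →
      N.len σ' ≤ N.len σ := fun σ σ' τ τ' y a1 a2 l1 l2 i1 i2 => by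
    by_contra h
    rw [not_le] at h
    have h3 := a2.2.2 _ a1.2.1 h
    have h4 := l2.2.2 _ h.le
    rw [l2.1.res h.le] at h3 h4
    have h5 := l1.2.2 _ le_rfl
    rw [N.res_len] at h5
    have h6 := l1.2.1
    have h7 := l2.2.1
    rcases i1.cases i2 with g | ⟨g1, g2⟩
    · exact h3 (by rw [← g _ h6.le (by omega), l1.1]; exact a1.1)
    obtain ⟨a, ha⟩ := Nat.exists_eq_succ_of_ne_zero a1.2.1.ne'
    replace g1 := (g1 a (by omega)).2 (by omega)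
    replace g2 := (g2 a (by omega)).2 (by omega)
    rw [← Nat.succ_eq_add_one, ← ha, l1.1] at g1 g2
    have := hn σ a1.1 _ h3
    omega
  refine ⟨PS.of M D, ?_, fun x => ?_, ?_, fun x => ?_⟩ <;> simp only [PS.mem_of dD]
  · rintro _ (⟨σ, -, rfl⟩ | ⟨z, h, -, rfl⟩)
    · exact op_of fun x hx _ => let ⟨τ, h3, h4⟩ := (hV _ _).1 hx
        ⟨τ, h4, fun z hz => (hV _ _).2 ⟨τ, h3, hz⟩⟩
    · exact op_S h
  · by_cases h : ∃ σ, A σ ∧ x ∈ V σ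
    · exact let ⟨σ, h3, h4⟩ := h; ⟨_, Or.inl ⟨σ, h3, rfl⟩, h4⟩
    refine ⟨_, Or.inr ⟨x, fun hx => ?_, h, rfl⟩, mem_S.2 rfl⟩
    obtain ⟨a, m, h3, h4⟩ := h1 x hx
    exact h ⟨_, h3, (hV _ _).2 ⟨_, h4, in_self _ _⟩⟩
  · rintro _ (⟨σ, ⟨⟨U, h3, h4⟩, -⟩, rfl⟩ | ⟨z, -, -, rfl⟩)
    · exact ⟨U, h3, fun x hx => let ⟨τ, h5, h6⟩ := (hV _ _).1 hx; h4 x (h6.mono h5.1)⟩
    · exact (hC' z).imp fun U h => ⟨h.1, fun x hx => mem_S.1 hx ▸ h.2⟩
  by_cases hx : x.o = none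
  · obtain ⟨a, m, h3, h4⟩ := h1 x hx
    refine ⟨B (x.f m), op_B _, mem_B.2 (in_self _ _), (Ctb.union (by fun_prop) (by fun_prop)
      (Ctb.image (f := fun i : ℕ => V (N.en (x.f (a + 1)) i)) (S := fun _ => True)
      (by fun_prop) (Ctb.nat _) (by fun_prop))
      (Ctb.of_finite (P := (· = V (x.f a))) (Set.finite_singleton _))).mono ?_⟩
    rintro _ ⟨⟨σ, h5, rfl⟩ | ⟨z, -, h5, rfl⟩, y, h6, h7⟩
    swap
    · exact absurd ⟨_, h3, (hV _ _).2 ⟨_, h4, mem_S.1 h6 ▸ mem_B.1 h7⟩⟩ h5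
    obtain ⟨τ, h8, h9⟩ := (hV _ _).1 h6
    have e1 := (h2 _ _ _ _ y h3 h5 h4 h8 (mem_B.1 h7) h9).antisymm
      (h2 _ _ _ _ y h5 h3 h8 h4 h9 (mem_B.1 h7))
    have e2 := h4.2.1
    have e3 := h8.2.1
    have e4 : N.res τ a = σ := by rw [← (Pt.br hx a).1, ← e1]; exact h8.1
    simp only [(Pt.br hx _).1] at e1 e2
    rcases (mem_B.1 h7).cases h9 with g | ⟨g, -⟩
    · have := g a (by rw [(Pt.br hx _).1]; omega) (by omega)
      rw [e4, (Pt.br hx).res e2.le] at this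
      exact Or.inr (this ▸ rfl)
    · obtain ⟨i, hi⟩ := (g a (by rw [(Pt.br hx _).1]; omega)).1 (by omega)
      rw [e4, (Pt.br hx).res e2] at hi
      exact Or.inl ⟨i, trivial, congrArg V hi⟩
  · refine ⟨S x, op_S hx, mem_S.2 rfl, (Ctb.union (by fun_prop) (by fun_prop)
      (Ctb.image (f := fun i : ℕ × ℕ => V (N.res (x.f i.1) i.2)) (S := fun _ => True ∧ True)
      (by fun_prop) ((Ctb.nat fun _ => True).prod (Ctb.nat fun _ => True)) (by fun_prop))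
      (Ctb.of_finite (P := (· = S x)) (Set.finite_singleton _))).mono ?_⟩
    rintro _ ⟨⟨σ, -, rfl⟩ | ⟨z, -, -, rfl⟩, y, h3, h4⟩ <;> obtain rfl := mem_S.1 h4
    · obtain ⟨τ, h5, k, h6⟩ := (hV _ _).1 h3
      exact Or.inl ⟨(k, N.len σ), ⟨trivial, trivial⟩, congrArg V (h5.1.trans h6)⟩
    · exact Or.inr (mem_S.1 h3 ▸ rfl)

theorem nor (hN : N.Ok) (U V : PS M N.Pt) (hU : Op U) (hV : Op V) (h : ∀ x, x ∈ U ∨ x ∈ V) :
    ∃ U' V', Op U' ∧ Op V' ∧ (∀ y ∈ U', y ∉ V') ∧ (∀ y, y ∉ U → y ∈ U') ∧ ∀ y, y ∉ V → y ∈ V' := by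
  let Z : PS M N.Pt → T → Prop := fun U σ => ∀ z, In σ z → z ∈ U
  have dZ : ∀ U, DfF M (Z U) := fun U => by simp only [Z, all_iff, imp_iff]; fun_prop
  choose n hn using fun U => hN.sep (PS.of M (Z U))
  simp only [PS.mem_of (dZ _)] at hn
  let L : PS M N.Pt → PS M N.Pt → ℕ → T → Prop := fun U V a τ => a < N.len τ ∧
    Z V (N.res τ (a + 1)) ∧ ¬ Z U τ ∧ ∀ b, b ≤ a + 1 →
      (n U).ap (N.res τ b) ≤ N.len τ ∧ (n V).ap (N.res τ b) ≤ N.len τ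
  have hW : ∀ U V z, z ∈ PS.of M (fun z => z ∉ U ∨ ∃ a τ, L U V a τ ∧ In τ z) ↔
      z ∉ U ∨ ∃ a τ, L U V a τ ∧ In τ z :=
    fun U V z => PS.mem_of (by simp only [L, Z, all_iff, imp_iff]; fun_prop)
  have h1 : ∀ U V, Op V → (∀ x, x ∉ U → x ∈ V) →
      Op (PS.of M fun z => z ∉ U ∨ ∃ a τ, L U V a τ ∧ In τ z) := fun U V hV h => op_of fun x h1 hx => by
    suffices ∃ a τ, L U V a τ ∧ In τ x from
      let ⟨a, τ, h2, h3⟩ := this; ⟨τ, h3, fun z hz => (hW _ _ _).2 (Or.inr ⟨a, τ, h2, hz⟩)⟩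
    refine ((hW _ _ _).1 h1).elim (fun h1 => ?_) id
    obtain ⟨a, ha⟩ := hV x (h x h1) hx
    obtain ⟨m, hm⟩ := ((Set.finite_Iic (a + 1)).image
      fun b => (n U).ap (x.f b) + (n V).ap (x.f b)).bddAbove
    refine ⟨a, x.f (a + 1 + m), ⟨?_, ?_, fun h2 => h1 (h2 x (in_self _ _)), fun b hb => ?_⟩,
      in_self _ _⟩
    · rw [(Pt.br hx _).1]; omega
    · rw [(Pt.br hx).res (Nat.le_add_right _ _)]
      exact fun z hz => ha z (hz.mono ((Pt.br hx).le a.le_succ))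
    · have : (n U).ap (x.f b) + (n V).ap (x.f b) ≤ m := hm ⟨b, hb, rfl⟩
      rw [(Pt.br hx).res (by omega), (Pt.br hx _).1]
      omega
  have h2 : ∀ U V a a' τ τ' (y : N.Pt), L U V a τ → L V U a' τ' → In τ y → In τ' y → ¬ a ≤ a' :=
    fun U V a a' τ τ' y l1 l2 i1 i2 e => by
      have h2 : ¬ Z V (N.res τ' (a + 1)) := fun h => l2.2.2.1 fun z hz => h z (hz.mono (res_le _ _))
      have h3 := l2.1
      rcases i1.cases i2 with g | ⟨g1, g2⟩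
      · exact h2 (g _ l1.1 (by omega) ▸ l1.2.1)
      have := hn V _ l1.2.1 _ h2
      have := (g1 a l1.1).2 (by omega)
      have := (g2 a (by omega)).2 l1.1
      have := (l1.2.2.2 _ le_rfl).2
      have := (l2.2.2.2 (a + 1) (by omega)).1
      omega
  refine ⟨_, _, h1 U V hV fun x => (h x).resolve_left, h1 V U hU fun x => (h x).resolve_right,
    fun y h3 h4 => ?_, fun y hy => (hW _ _ _).2 (Or.inl hy), fun y hy => (hW _ _ _).2 (Or.inl hy)⟩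
  rcases (hW _ _ _).1 h3 with h3 | ⟨a, τ, h3, h5⟩ <;> rcases (hW _ _ _).1 h4 with h4 | ⟨a', τ', h4, h6⟩
  · exact (h y).elim h3 h4
  · exact h3 (h4.2.1 y (h6.mono (res_le _ _)))
  · exact h4 (h3.2.1 y (h5.mono (res_le _ _)))
  · exact (le_total a a').elim (h2 _ _ _ _ _ _ y h3 h4 h5 h6) (h2 _ _ _ _ _ _ y h4 h3 h6 h5)

theorem typed (hN : N.Ok) : Typed (Op (N := N)) where
  df := by
    show DfF M fun U : PS M N.Pt => Op U
    simp only [Op, all_iff, imp_iff]; fun_prop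
  whole A h x _ _ := ⟨0, fun z _ => h z⟩
  inter A B C hA hB h x h1 h2 := by
    obtain ⟨m, hm⟩ := hA x ((h x).1 h1).1 h2
    obtain ⟨n, hn⟩ := hB x ((h x).1 h1).2 h2
    exact ⟨max m n, fun z hz => (h z).2 ⟨hm z (hz.mono ((Pt.br h2).le (le_max_left _ _))),
      hn z (hz.mono ((Pt.br h2).le (le_max_right _ _)))⟩⟩
  loc C h x h1 h2 := let ⟨_, h3, h4, h5⟩ := h x h1; (h3 x h4 h2).imp fun _ h z hz => h5 z (h z hz)
  t1 x y e := by
    by_cases h : x.o = none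
    · obtain ⟨n, hn⟩ := exists_not_in h e
      exact ⟨_, op_B _, mem_B.2 (in_self x n), mt mem_B.1 hn⟩
    · exact ⟨_, op_S h, mem_S.2 rfl, mt mem_S.1 e.symm⟩
  reg := reg
  nor := nor hN
  pl := pl hN
  bco := by
    let D : PS M N.Pt → Prop := fun U => (∃ σ, U = B σ) ∨ ∃ z, z.o ≠ none ∧ U = S z
    have dD : DfF M D := by fun_prop
    refine ⟨PS.of M D, ?_, fun U hU x hx => ?_, fun x b h1 h2 h3 U hU hx => ?_⟩ <;>
      simp only [PS.mem_of dD] at *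
    · rintro _ (⟨σ, rfl⟩ | ⟨z, h, rfl⟩)
      exacts [op_B σ, op_S h]
    · by_cases h : x.o = none
      · obtain ⟨n, hn⟩ := hU x hx h
        exact ⟨_, Or.inl ⟨_, rfl⟩, mem_B.2 (in_self x n), fun y hy => hn y (mem_B.1 hy)⟩
      · exact ⟨_, Or.inr ⟨x, h, rfl⟩, mem_S.2 rfl, fun y hy => mem_S.1 hy ▸ hx⟩
    obtain ⟨σ, dσ, hσ⟩ := exists_choice (M := M) (R := fun n σ => b.ap n = B σ) (by fun_prop)
      fun n => (h1 n).resolve_right fun ⟨z, _, e⟩ => (h3 n).2 (PS.ext fun y => ⟨(h3 n).1 y,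
        fun h => by
          have := h2 n
          rw [e, mem_S] at h this
          exact h.trans this.symm ▸ h2 (n + 1)⟩)
    simp only [hσ, mem_B] at h2 h3 ⊢
    have h4 : ∀ n, N.len (σ n) < N.len (σ (n + 1)) ∧ N.Le (σ n) (σ (n + 1)) := fun n => by
      obtain ⟨y, h4, h5⟩ := exists_branch (N := N) (σ (n + 1))
      have h6 := ((h3 n).1 y h5).br h4
      replace h5 := h5.br h4
      have h7 : N.len (σ n) < N.len (σ (n + 1)) := not_le.1 fun h => (h3 n).2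
        (PS.ext fun z => by
          simp only [mem_B]
          exact ⟨(h3 n).1 z, In.mono (h5 ▸ h6 ▸ (Pt.br h4).le h)⟩)
      exact ⟨h7, h5 ▸ h6 ▸ (Pt.br h4).le h7.le⟩
    have h5 : ∀ n, n ≤ N.len (σ n) := fun n => by
      induction n with
      | zero => exact Nat.zero_le _
      | succ n ih => exact ih.trans_lt (h4 n).1
    by_cases h : x.o = none
    · obtain ⟨n, hn⟩ := hU x hx h
      exact ⟨n, fun y hy => hn y (hy.mono ((h2 n).br h ▸ (Pt.br h).le (h5 n)))⟩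
    let y : N.Pt := ⟨(⟨fun n => N.res (σ n) n, by fun_prop⟩, none), fun _ n => by
      simp only [Fn.ap_mk, N.len_res, N.res_res, min_eq_left (h5 n), min_eq_left n.le_succ]
      exact ⟨trivial, ((h4 n).2.res (h5 n)).symm⟩, fun h => absurd rfl h⟩
    obtain ⟨n, hn⟩ := exists_not_in (x := y) (y := x) rfl fun e => h (e ▸ rfl)
    exact absurd ((h2 n).mono (res_le _ _)) hn
  nos b h1 h2 := by
    let G : ℕ → N.Pt → Prop := fun k z => ∃ V, V ∈ b.ap k ∧ z ∈ V ∧ ∀ y, y ∈ V → y = z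
    have dG : DfF M fun p : ℕ × N.Pt => G p.1 p.2 := by simp only [G, all_iff, imp_iff]; fun_prop
    have dA : DfF M fun p : ℕ × T => Ctb M fun z => In p.2 z ∧ G p.1 z := by fun_prop
    obtain ⟨d, h3, h4⟩ := hN.clique (PS.of M fun p => Ctb M fun z => In p.2 z ∧ G p.1 z)
      fun k f hf => by
      simp only [PS.mem_of dA]
      obtain ⟨W, h3, h4, h5⟩ := h2 k ⟨(f, none), fun _ => hf, fun h => absurd rfl h⟩
      obtain ⟨n, hn⟩ := h3 _ h4 rfl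
      refine ⟨n, (Ctb.biUnion (by fun_prop) h5 (A := fun V z => z ∈ V ∧ ∀ y, y ∈ V → y = z)
        (by simp only [all_iff, imp_iff]; fun_prop) fun V _ => Ctb.of_finite
          (Set.Subsingleton.finite fun x hx y hy => hy.2 x hx.1)).mono ?_⟩
      exact fun z ⟨h6, V, h7, h8⟩ => ⟨V, ⟨h7, z, h8.1, hn z h6⟩, h8⟩
    simp only [PS.mem_of dA] at h4
    let z : Fn M ℕ ℕ → N.Pt := fun y => ⟨(d, some y), by simp, fun _ => h3⟩
    have : Nonempty N.Pt := ⟨z ⟨id, DfF.id⟩⟩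
    obtain ⟨e, de, he⟩ := Ctb.exists_enum (by simp only [all_iff]; fun_prop)
      (Ctb.iUnion (A := fun k (z : N.Pt) => (∀ n, z.f n = d.ap n) ∧ G k z)
        (by simp only [all_iff]; fun_prop) fun k => let ⟨a, ha⟩ := h4 k
          ha.mono fun z h => ⟨⟨k, h.1 k ▸ res_le _ _⟩, h.2⟩)
    obtain ⟨y, dy, hy⟩ := exists_choice (M := M)
      (R := fun n v => ∀ g : Fn M ℕ ℕ, (e n).o = some g → g.ap n ≠ v)
      (by simp only [all_iff, imp_iff]; fun_prop) fun n => by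
        rcases (e n).o with _ | g
        · simp
        · exact ⟨g.ap n + 1, by simp⟩
    obtain ⟨k, V, h5, h6, h7⟩ := h1 _ (op_S (x := z ⟨y, dy⟩) (by simp [z, Pt.o])) _ (mem_S.2 rfl)
    obtain ⟨n, hn⟩ := he (z ⟨y, dy⟩) ⟨k, fun _ => rfl, V, h5, h6, fun w hw => mem_S.1 (h7 w hw)⟩
    exact hy n ⟨y, dy⟩ (hn ▸ rfl) rfl

end Nv

end Pool.Agent.MP_57347c_gt.H92

end MrgPart6

-- ======== part 7: formerly Pool.Agent.MP_57347c_gt.h92.Force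
section MrgPart7

/-! A transitive model of ZFC with a tree, a separation matrix and infinite cliques. -/

namespace Pool.Agent.MP_57347c_gt.H92

open Pool.Agent.ZF92 Pool.Agent.Forcing92 Function Set Sum
open scoped Classical

variable {Λ : Type}

def PC (F : Frame (List ℝ) Λ) := {p // F.IsC p}

def leC {F : Frame (List ℝ) Λ} (q p : PC F) : Prop := p.1.le q.1

instance (F : Frame (List ℝ) Λ) : Pre (leC (F := F)) where
  refl p := p.1.le_refl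
  trans h h' := Dt.le.trans h' h

def opr (en : List ℝ → ℕ → List ℝ) : ℕ × ℕ → List ℝ → List ℝ
  | (0, a), x => x.take a
  | (1, i), x => en x i
  | (_ + 2, _), x => x ++ [0]

variable {F : Frame (List ℝ) Λ}

noncomputable def nK (t : PC F) : ℕ × List ℝ → Name (PC F) := prodN t (natName t) (chk t)

def FA (t : PC F) (τ : Name (PC F)) (k : ℕ) (ρ : List ℝ) (q : Dt (List ℝ ⊕ Λ) ℕ) : Prop :=
  ∃ a, ∃ q' : PC F, q'.1.le q ∧ fMem leC (nK t (k, ρ.take a)) τ q'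

def RR (t : PC F) (en : List ℝ → ℕ → List ℝ) (Ξ : Name (PC F) → Λ) : ℕ × ℕ × ℕ →
    (ℕ → Name (PC F)) → Name (PC F) → PC F → Prop
  | (0, _), _, x, _ => x = relN (chk t : List ℝ → _) fun _ _ => True
  | (1, _), _, x, _ => x = relN (prodN t (prodN t (prodN t (natName t) (natName t)) (chk t)) (chk t))
      fun a _ => opr en a.1.1 a.1.2 = a.2
  | (2, k), w, x, _ => ∃ σ, w 0 = chk t σ ∧ x = chk t (opr en k σ)
  | (3, _), _, x, _ => x = relN (prodN t (chk t : List ℝ → _) (natName t)) fun a _ => a.1.length = a.2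
  | (4, _), _, x, _ => x = relN (prodN t (prodN t (chk t) (chk t)) (natName t)) fun a p =>
      inl a.1.1 ∈ p.1.u ∧ inl a.1.2 ∈ p.1.u ∧ p.1.lab (inl a.1.1) (inl a.1.2) = a.2
  | (5, _), w, _, p => ∃ σ τ, w 0 = chk t σ ∧ w 1 = chk t τ ∧ inl σ ∈ p.1.u ∧ inl τ ∈ p.1.u
  | (6, _), w, x, _ => x = relN (prodN t (chk t) (natName t)) fun a p =>
      inr (Ξ (w 0)) ∈ p.1.u ∧ inl a.1 ∈ p.1.u ∧ p.1.lab (inr (Ξ (w 0))) (inl a.1) = a.2
  | (7, _), w, _, p => ∃ σ, w 1 = chk t σ ∧ inr (Ξ (w 0)) ∈ p.1.u ∧ inl σ ∈ p.1.u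
  | (8, _), _, x, _ => x = chk t ([] : List ℝ)
  | (9, _), w, x, p => (∃ k y, x = chk t y ∧
      (∀ n, (en y n).length = n ∧ (en y (n + 1)).take n = en y n) ∧
      ∀ q, leC q p → ∀ n, ¬ fMem leC (nK t (k, en y n)) (w 0) q) ∨
      ∃ St : ℕ → (ℕ → List ℝ) → Dt (List ℝ ⊕ Λ) ℕ → Prop,
        x = relN (nK t) (fun a q => St a.1 (en a.2) q.1) ∧ (∀ d, St 0 d p.1) ∧
        (∀ k d p p', St k d p → F.IsC p' → p.le p' →
          ∃ d' r, F.IsC r ∧ p'.le r ∧ St (k + 1) d' r ∧ ∀ i < k, d' i = d i) ∧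
        ∀ k d p, St k d p → ∀ l < k, FA t (w 0) l (d l) p ∧ ∀ l' < k, l ≠ l' → ∀ a < (d l).length,
          (a ≤ (d l').length → ∃ i, en ((d l).take (a + 1)) i = (d l').take a) ∧
          (a < (d l').length → inl ((d l).take (a + 1)) ∈ p.u ∧ inl ((d l').take (a + 1)) ∈ p.u ∧
            (d l).length ≤ p.lab (inl ((d l).take (a + 1))) (inl ((d l').take (a + 1))))
  | (_ + 10, k), w, x, p => ∃ (S : ℕ × List ℝ → PC F → Prop) (y y' : List ℝ), w 0 = relN (nK t) S ∧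
      w 1 = chk t y ∧ x = chk t y' ∧ S (k.1 + 1, y') p ∧ ∀ i < k.1, en y' i = en y i

theorem exists_navy : ∃ (M : Set ZFSet.{0}) (_ : Fact (ZFC M)) (T : Type) (_ : Srt M T)
    (_ : Sm M T) (N : Nv M T), N.Ok := by
  obtain ⟨g, en, hen, ek⟩ := exists_ek
  let F := frame g
  let t : PC F := ⟨⟨∅, 0⟩, fun _ h => absurd h (Finset.notMem_empty _)⟩
  have ht : ∀ p, leC p t := fun p =>
    ⟨Finset.empty_subset _, fun _ h => absurd h (Finset.notMem_empty _)⟩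
  choose B hB1 hB2 hB3 using fun (τ : Name (PC F)) (σ : List ℝ) =>
    F.ccc {q | ∃ h, fMem leC (chk t σ) τ ⟨q, h⟩} fun _ h => h.1
  choose Ξ hΞ using fun τ => frame_full g (B τ) (hB2 τ)
  obtain ⟨N, G, -, h, h'⟩ := exists_gen_zfc leC t (RR t en Ξ) t
  have hM : Fact (ZFC (val N G '' N)) := ⟨h.zfc ht⟩
  have e0 := fin'_emp h.emp_mem
  obtain ⟨_, _, hT⟩ := h.exists_srt (h.vi_chk ht (List ℝ)) (h'.op (0, 0, 0) e0 fun _ _ => Iff.rfl)
  have hN := h.emb_nat ht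
  have vT := h.vi_chk ht (List ℝ)
  have vN := h.vi_nat ht
  have hK := h.emb_prod ht hN hT
  have vK : VI N G (nK t) := h.vi_prod ht vN vT
  have cl : ∀ k (x : Sub N (chk t : List ℝ → _)), chk t (opr en k x.a) ∈ N := fun k x =>
    h'.op (2, k) (h.env1 x.mem) fun _ _ => ⟨fun ⟨_, h1, h2⟩ => chk_inj ht h1 ▸ h2,
      fun h => ⟨_, rfl, h⟩⟩
  let o : ℕ × ℕ → Sub N (chk t : List ℝ → _) → Sub N (chk t : List ℝ → _) := fun k x => ⟨_, cl k x⟩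
  have d1 : DfF (val N G '' N) fun p : (ℕ × ℕ) × Sub N (chk t : List ℝ → _) => o p.1 p.2 :=
    DfF.of_graph ((h.df_ground (h.emb_prod ht (h.emb_prod ht (h.emb_prod ht hN hN) hT) hT)
      (h.vi_prod ht (h.vi_prod ht (h.vi_prod ht vN vN) vT) vT)
      (h'.op (1, 0, 0) e0 fun _ _ => Iff.rfl)).congr fun p => ⟨congrArg Sub.a, fun e => Sub.ext e⟩)
  have d3 := h.df_ground (h.emb_prod ht hT hN) (h.vi_prod ht vT vN)
    (h'.op (3, 0, 0) e0 fun _ _ => Iff.rfl)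
  have d4 := (h.emb_prod ht (h.emb_prod ht hT hT) hN).df (h.vi_prod ht (h.vi_prod ht vT vT) vN)
    (h'.op (4, 0, 0) e0 fun _ _ => Iff.rfl)
  have two : ∀ (q : PC F) x y, ∃ r, leC r q ∧ x ∈ r.1.u ∧ y ∈ r.1.u := fun q x y =>
    let ⟨_, h1, h2, h3⟩ := Frame.exists_atom q.2 x
    let ⟨r, h4, h5, h6⟩ := Frame.exists_atom h1 y
    ⟨⟨r, h4⟩, h2.trans h5, h5.1 h3, h6⟩
  have fn : ∀ {p q : PC F} {x y}, p ∈ G → q ∈ G → x ∈ p.1.u → y ∈ p.1.u → x ∈ q.1.u → y ∈ q.1.u →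
      p.1.lab x y = q.1.lab x y := fun hp hq h1 h2 h3 h4 => let ⟨_, _, h5, h6⟩ := h.dir hp hq
    (h5.2 _ h1 _ h2).symm.trans (h6.2 _ h3 _ h4)
  obtain ⟨c, dc, hc⟩ := exists_choice (R := fun (x : Sub N (chk t : List ℝ → _) ×
    Sub N (chk t : List ℝ → _)) (n : ℕ) => ∃ p ∈ G, inl x.1.a ∈ p.1.u ∧ inl x.2.a ∈ p.1.u ∧
      p.1.lab (inl x.1.a) (inl x.2.a) = n) d4 fun x => by
    obtain ⟨r, hr, -, -, σ, τ, h1, h2, h3, h4⟩ := h'.dense (5, 0, 0) (h.env2 x.1.mem x.2.mem)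
      (h.top_mem ht) fun q _ => let ⟨r, h1, h2⟩ := two q (inl x.1.a) (inl x.2.a)
        ⟨r, h1, emp, _, _, rfl, rfl, h2⟩
    exact ⟨_, r, hr, chk_inj ht h1 ▸ h3, chk_inj ht h2 ▸ h4, rfl⟩
  have hc' : ∀ σ τ, ∀ p ∈ G, inl σ.a ∈ p.1.u → inl τ.a ∈ p.1.u →
      c (σ, τ) = p.1.lab (inl σ.a) (inl τ.a) := fun σ τ p hp h1 h2 =>
    let ⟨_, h3, h4, h5, h6⟩ := hc (σ, τ); h6.symm.trans (fn h3 hp h4 h5 h1 h2)
  let V : Nv (val N G '' N) (Sub N (chk t : List ℝ → _)) :=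
    { len := fun x => x.a.length
      res := fun x a => o (0, a) x
      en := fun x i => o (1, i) x
      c := fun x y => c (x, y)
      dlen := DfF.of_graph d3
      dres := d1.comp (g := fun p : Sub N (chk t : List ℝ → _) × ℕ => ((0, p.2), p.1)) (by fun_prop)
      den := d1.comp (g := fun p : Sub N (chk t : List ℝ → _) × ℕ => ((1, p.2), p.1)) (by fun_prop)
      dc := dc
      len_res := fun x a => List.length_take
      res_res := fun x a b => Sub.ext List.take_take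
      res_len := fun x => Sub.ext List.take_length
      succ := fun x => ⟨o (2, 0) x, List.length_append, Sub.ext List.take_left⟩ }
  refine ⟨_, hM, _, inferInstance, inferInstance, V, fun Z => ?_, fun A hA => ?_⟩
  · obtain ⟨τ, hτ, e⟩ := h.exists_name_ps hT Z
    obtain ⟨n, dn, hn⟩ := exists_choice (R := fun (x : Sub N (chk t : List ℝ → _)) (n : ℕ) =>
      ∃ p ∈ G, inr (Ξ τ) ∈ p.1.u ∧ inl x.a ∈ p.1.u ∧ p.1.lab (inr (Ξ τ)) (inl x.a) = n)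
      ((h.emb_prod ht hT hN).df (h.vi_prod ht vT vN)
        (h'.op (6, 0, 0) (h.env1 hτ) fun _ _ => Iff.rfl)) fun x => by
      obtain ⟨r, hr, -, -, σ, h1, h2, h3⟩ := h'.dense (7, 0, 0) (h.env2 hτ x.mem)
        (h.top_mem ht) fun q _ => let ⟨r, h1, h2⟩ := two q (inr (Ξ τ)) (inl x.a)
          ⟨r, h1, emp, _, rfl, h2⟩
      exact ⟨_, r, hr, h2, chk_inj ht h1 ▸ h3, rfl⟩
    refine ⟨⟨n, dn⟩, fun x hx y hy => by_contra fun h1 => ?_⟩
    simp only [not_or, not_lt, Fn.ap_mk] at h1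
    obtain ⟨p1, a1, a2, a3, a4⟩ := hn x
    obtain ⟨p2, b1, b2, b3, b4⟩ := hn y
    obtain ⟨p3, c1, c2⟩ := (e x).1 hx
    obtain ⟨p, hp, g1, g2, g3⟩ := h.dir3 a1 b1 c1
    have g4 := p.2 _ (g1.1 a2)
    rw [Frame.good_iff] at g4
    obtain ⟨b, g5, g6⟩ := g4.2 x.a y.a (fun e => hy (Sub.ext e ▸ hx)) (g1.1 a3) (g2.1 b3)
      (by rw [g1.2 _ a2 _ a3, a4, ← hc' x y p hp (g1.1 a3) (g2.1 b3)]; exact h1.1)
      (by rw [g2.2 _ b2 _ b3, b4, ← hc' y x p hp (g2.1 b3) (g1.1 a3)]; exact h1.2)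
    cases b
    · obtain ⟨q, g7, r, g8, g9, g10⟩ := hB3 τ x.a p.1 ⟨p.2, fMem_mono g3 c2⟩
      exact g8.not_hit g9 g5 ((hΞ τ _ _).2 ⟨q, g7, g10⟩)
    · obtain ⟨q, g7, g8⟩ := (hΞ τ _ _).1 (Frame.dec_true.1 g6)
      obtain ⟨g9, g10⟩ := hB1 τ _ g7
      exact hy ((e y).2 ⟨p, hp, fMem_mono (show leC p ⟨q, g9⟩ from g8) g10⟩)
  obtain ⟨τ, hτ, e⟩ := h.exists_name_ps hK A
  obtain ⟨p0, hp0, x, hx, h1⟩ := h'.dense (9, 0, 0) (h.env1 hτ) (h.top_mem ht) fun q _ => by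
    by_cases H : ∀ k (f : ℕ → List ℝ), (∀ n, Sc (f n) (f (n + 1))) → ∀ r, F.IsC r → q.1.le r →
      ∃ r', F.IsC r' ∧ r.le r' ∧ ∃ n, FA t τ k (f n) r'
    · obtain ⟨St, h1⟩ := exists_states ek
        (fun k ρ p q h ⟨a, q', h1, h2⟩ => ⟨a, q', h1.trans h, h2⟩) H
      exact ⟨q, lrefl q, _, Or.inr ⟨St, rfl, h1⟩⟩
    push Not at H
    obtain ⟨k, f, h1, r, h2, h3, h4⟩ := H
    obtain ⟨y, hy⟩ := hen fun n => (f n).take n
    have h5 : ∀ n, n ≤ (f n).length := fun n => by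
      induction n with
      | zero => exact Nat.zero_le _
      | succ n ih => rw [(h1 n).len]; omega
    refine ⟨⟨r, h2⟩, h3, _, Or.inl ⟨k, y, rfl, fun n => ?_, fun q' h6 n h7 =>
      h4 q'.1 q'.2 h6 n ⟨n, q', Dt.le_refl _, by rwa [hy] at h7⟩⟩⟩
    simp only [hy, List.length_take, List.take_take, min_eq_left (h5 n), min_eq_left n.le_succ]
    exact ⟨trivial, (h1 n).take (h5 n)⟩
  rcases h1 with ⟨k, y, rfl, h1, h2⟩ | ⟨St, rfl, h1, h2, h3⟩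
  · obtain ⟨n, hn⟩ := hA k ⟨fun n => V.en ⟨y, hx⟩ n, by fun_prop⟩
      fun n => ⟨(h1 n).1, Sub.ext (h1 n).2⟩
    obtain ⟨p, hp, h3⟩ := (e _).1 hn
    obtain ⟨q, -, h4, h5⟩ := h.dir hp0 hp
    exact absurd (fMem_mono h5 h3) (h2 q h4 n)
  have dS := hK.df vK hx
  let x0 : Sub N (chk t : List ℝ → _) := ⟨[], h'.op (8, 0, 0) e0 fun _ _ => Iff.rfl⟩
  have : Nonempty (Sub N (chk t : List ℝ → _)) := ⟨x0⟩
  let S : ℕ → Sub N (chk t : List ℝ → _) → Prop := fun k x => ∃ p ∈ G, St k (en x.a) p.1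
  replace dS : DfF (val N G '' N) fun p : ℕ × Sub N (chk t : List ℝ → _) => S p.1 p.2 := dS
  obtain ⟨s, ds, hs⟩ := exists_choice' (M := val N G '' N)
    (R := fun (x : ℕ × Sub N (chk t : List ℝ → _)) y =>
      S (x.1 + 1) y ∧ ∀ i < x.1, V.en y i = V.en x.2 i) (by simp only [all_iff, imp_iff]; fun_prop)
  have h4 : ∀ k x, S k x → S (k + 1) (s (k, x)) ∧ ∀ i < k, V.en (s (k, x)) i = V.en x i := by
    rintro k x ⟨p, hp, h4⟩
    obtain ⟨r, hr, z, hz, S', y, y', g1, g2, rfl, g3, g4⟩ := h'.dense (10, k, 0) (h.env2 hx x.mem)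
      hp fun q hq => by
        obtain ⟨d, r, h5, h6, h7, h8⟩ := h2 k _ _ _ h4 q.2 hq
        obtain ⟨y, rfl⟩ := hen d
        exact ⟨⟨r, h5⟩, h6, _, fun a q => St a.1 (en a.2) q.1, _, y, rfl, rfl, rfl, h7, h8⟩
    obtain rfl := chk_inj ht g2
    have g5 := (hK (k + 1, ⟨y', hz⟩)).1
    refine hs (k, x) ⟨y', hz⟩ ⟨(mem_val_relN (R := fun a q => St a.1 (en a.2) q.1) vK g5).1 ?_,
      fun i hi => Sub.ext (g4 i hi)⟩
    rw [show relN (nK t) (fun a q => St a.1 (en a.2) q.1) = relN (nK t) S' from g1]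
    exact (mem_val_relN vK g5).2 ⟨r, hr, g3⟩
  let u : ℕ → Sub N (chk t : List ℝ → _) := fun k => Nat.rec x0 (fun k x => s (k, x)) k
  have du : DfF (val N G '' N) u := DfF.natRec (z := fun _ => x0) (s := fun _ k x => s (k, x))
    (k := fun k => k) (by fun_prop) (by fun_prop) DfF.id
  have h5 : ∀ k, S k (u k) := fun k => by
    induction k with
    | zero => exact ⟨p0, hp0, h1 _⟩
    | succ k ih => exact (h4 k _ ih).1
  have h6 : ∀ k, ∀ i < k, en (u k).a i = (V.en (u (i + 1)) i).a := fun k i hi => by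
    induction hi with
    | refl => rfl
    | step hi ih => exact (congrArg Sub.a ((h4 _ _ (h5 _)).2 i hi)).trans ih
  refine ⟨⟨fun k => V.en (u (k + 1)) k, by fun_prop⟩, fun k l hkl a ha => ?_, fun k => ?_⟩
  · obtain ⟨p, hp, h7⟩ := h5 (max k l + 1)
    have h8 := (h3 _ _ _ h7 k (by omega)).2 l (by omega) hkl
    rw [h6 (max k l + 1) k (by omega), h6 (max k l + 1) l (by omega)] at h8
    exact ⟨fun h => ((h8 a ha).1 h).imp fun _ => Sub.ext, fun h =>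
      let ⟨g1, g2, g3⟩ := (h8 a ha).2 h; g3.trans_eq (hc' (V.res (V.en (u (k + 1)) k) (a + 1))
        (V.res (V.en (u (l + 1)) l) (a + 1)) p hp g1 g2).symm⟩
  · obtain ⟨p, hp, h7⟩ := h5 (k + 1)
    obtain ⟨a, q, h8, h9⟩ := (h3 _ _ _ h7 k k.lt_succ_self).1
    exact ⟨a, (e _).2 ⟨p, hp, fMem_mono h8 h9⟩⟩

end Pool.Agent.MP_57347c_gt.H92

end MrgPart7

-- marker of a merged file
example : 731051 + 491186 = 731051 + 491186 := rfl
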